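import Pool.Agent.Lib.MP_d61eec_lc.Machine

/-!
# Counter machines modulo five simulate every partial recursive function
-/

set_option autoImplicit false

namespace Pool.Agent.Lib.MP_d61eec_lc

open Turing PartrecToTM2 StateTransition Relation

/-- contents of the four stacks -/
abbrev Stk := K' → List Γ'

/-- statements -/
abbrev SS := TM2.Stmt (fun _ : K' => Γ') Λ' (Option Γ')

/-- configurations -/
abbrev CC := TM2.Cfg (fun _ : K' => Γ') Λ' (Option Γ')

/-- control states used in the simulation -/
abbrev QS := Option (SS × Option Γ')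

/-- next control state as a function of the top symbols of the stacks -/
def nxtS : QS → (K' → Option Γ') → QS
  | none, _ => none
  | some (.push _ _ q, v), _ => some (q, v)
  | some (.peek k f q, v), h => some (q, f v (h k))
  | some (.pop k f q, v), h => some (q, f v (h k))
  | some (.load a q, v), _ => some (q, a v)
  | some (.branch f q₁ q₂, v), _ => some (cond (f v) q₁ q₂, v)
  | some (.goto l, v), _ => some (tr (l v), v)
  | some (.halt, _), _ => none

/-- operations on stacks: `none` keeps the stack, `some none` is pop, `some (some a)` pushes `a` -/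
def opS : QS → K' → Option (Option Γ')
  | some (.push k f _, v), k' => if k' = k then some (some (f v)) else none
  | some (.pop k _ _, _), k' => if k' = k then some none else none
  | _, _ => none

/-- effect of an operation -/
def applyOp : Option (Option Γ') → List Γ' → List Γ'
  | none, l => l
  | some none, l => l.tail
  | some (some a), l => a :: l

/-- one step -/
def ustep (x : QS × Stk) : QS × Stk :=
  (nxtS x.1 fun k => (x.2 k).head?, fun k => applyOp (opS x.1 k) (x.2 k))

theorem ustep_none (T : Stk) : ustep (none, T) = (none, T) := rfl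

/-- representation of configurations -/
def rep : CC → QS × Stk
  | ⟨some l, v, T⟩ => (some (tr l, v), T)
  | ⟨none, _, T⟩ => (none, T)

theorem ustep_stmt (q : SS) : ∀ (v : Option Γ') (T : Stk),
    ∃ m, ustep^[m] (some (q, v), T) = rep (TM2.stepAux q v T) := by
  induction q with
  | push k f q ih =>
    intro v T
    obtain ⟨m, hm⟩ := ih v (Function.update T k (f v :: T k))
    refine ⟨m + 1, ?_⟩
    rw [Function.iterate_succ_apply]
    have : ustep (some (TM2.Stmt.push k f q, v), T) =
        (some (q, v), Function.update T k (f v :: T k)) := by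
      refine Prod.ext rfl ?_
      funext k'
      by_cases h : k' = k
      · subst h; simp [ustep, opS, applyOp]
      · simp [ustep, opS, applyOp, h]
    rw [this]
    exact hm
  | peek k f q ih =>
    intro v T
    obtain ⟨m, hm⟩ := ih (f v (T k).head?) T
    exact ⟨m + 1, hm⟩
  | pop k f q ih =>
    intro v T
    obtain ⟨m, hm⟩ := ih (f v (T k).head?) (Function.update T k (T k).tail)
    refine ⟨m + 1, ?_⟩
    rw [Function.iterate_succ_apply]
    have : ustep (some (TM2.Stmt.pop k f q, v), T) =
        (some (q, f v (T k).head?), Function.update T k (T k).tail) := by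
      refine Prod.ext rfl ?_
      funext k'
      by_cases h : k' = k
      · subst h; simp [ustep, opS, applyOp]
      · simp [ustep, opS, applyOp, h]
    rw [this]
    exact hm
  | load f q ih =>
    intro v T
    obtain ⟨m, hm⟩ := ih (f v) T
    exact ⟨m + 1, hm⟩
  | branch f q₁ q₂ ih₁ ih₂ =>
    intro v T
    rcases hf : f v with _ | _
    · obtain ⟨m, hm⟩ := ih₂ v T
      refine ⟨m + 1, ?_⟩
      rw [Function.iterate_succ_apply]
      have : ustep (some (TM2.Stmt.branch f q₁ q₂, v), T) = (some (q₂, v), T) := by
        simp [ustep, nxtS, hf, opS, applyOp]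
      rw [this, hm]
      simp [TM2.stepAux, hf]
    · obtain ⟨m, hm⟩ := ih₁ v T
      refine ⟨m + 1, ?_⟩
      rw [Function.iterate_succ_apply]
      have : ustep (some (TM2.Stmt.branch f q₁ q₂, v), T) = (some (q₁, v), T) := by
        simp [ustep, nxtS, hf, opS, applyOp]
      rw [this, hm]
      simp [TM2.stepAux, hf]
  | goto l => intro v T; exact ⟨1, rfl⟩
  | halt => intro v T; exact ⟨1, rfl⟩

theorem ustep_reaches {c c' : CC} (h : Reaches (TM2.step tr) c c') :
    ∃ m, ustep^[m] (rep c) = rep c' := by
  induction h with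
  | refl => exact ⟨0, rfl⟩
  | @tail b d _ hd ih =>
    obtain ⟨m, hm⟩ := ih
    obtain ⟨l, v, T⟩ := b
    cases l with
    | none => simp at hd
    | some l =>
      simp only [TM2.step, Option.mem_def, Option.some.injEq] at hd
      subst hd
      obtain ⟨m', hm'⟩ := ustep_stmt (tr l) v T
      refine ⟨m' + m, ?_⟩
      rw [Function.iterate_add_apply, hm]
      exact hm'

/-- the invariant used for soundness -/
def Inv (c₀ : CC) : QS × Stk → Prop
  | (some (q, v), T) => Reaches (TM2.step tr) c₀ (TM2.stepAux q v T)
  | (none, T) => ∃ v, Reaches (TM2.step tr) c₀ ⟨none, v, T⟩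

theorem inv_ustep {c₀ : CC} : ∀ {x : QS × Stk}, Inv c₀ x → Inv c₀ (ustep x) := by
  rintro ⟨x, T⟩ h
  rcases x with _ | ⟨q, v⟩
  · exact h
  · cases q with
    | push k f q =>
      have : ustep (some (TM2.Stmt.push k f q, v), T) =
          (some (q, v), Function.update T k (f v :: T k)) := by
        refine Prod.ext rfl ?_
        funext k'
        by_cases h : k' = k
        · subst h; simp [ustep, opS, applyOp]
        · simp [ustep, opS, applyOp, h]
      rw [this]
      exact h
    | peek k f q => exact h
    | pop k f q =>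
      have : ustep (some (TM2.Stmt.pop k f q, v), T) =
          (some (q, f v (T k).head?), Function.update T k (T k).tail) := by
        refine Prod.ext rfl ?_
        funext k'
        by_cases h : k' = k
        · subst h; simp [ustep, opS, applyOp]
        · simp [ustep, opS, applyOp, h]
      rw [this]
      exact h
    | load f q => exact h
    | branch f q₁ q₂ =>
      have h' : Reaches (TM2.step tr) c₀ (TM2.stepAux (TM2.Stmt.branch f q₁ q₂) v T) := h
      show Reaches (TM2.step tr) c₀ (TM2.stepAux (cond (f v) q₁ q₂) v T)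
      cases hf : f v <;> simpa [TM2.stepAux, hf] using h'
    | goto l =>
      have h' : Reaches (TM2.step tr) c₀ (TM2.stepAux (TM2.Stmt.goto l) v T) := h
      show Reaches (TM2.step tr) c₀ (TM2.stepAux (tr (l v)) v T)
      exact ReflTransGen.tail h' rfl
    | halt => exact ⟨v, h⟩

theorem halts_iff (l₀ : Λ') (T₀ : Stk) :
    (∃ m, (ustep^[m] (some (tr l₀, none), T₀)).1 = none) ↔
      (StateTransition.eval (TM2.step tr) (⟨some l₀, none, T₀⟩ : CC)).Dom := by
  constructor
  · rintro ⟨m, hm⟩
    have h0 : Inv ⟨some l₀, none, T₀⟩ (some (tr l₀, none), T₀) :=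
      ReflTransGen.single (by simp [TM2.step])
    have h1 : ∀ m, Inv ⟨some l₀, none, T₀⟩ (ustep^[m] (some (tr l₀, none), T₀)) := by
      intro m
      induction m with
      | zero => exact h0
      | succ m ih => rw [Function.iterate_succ_apply']; exact inv_ustep ih
    have h2 := h1 m
    rcases hx : ustep^[m] (some (tr l₀, none), T₀) with ⟨x, T⟩
    rw [hx] at h2 hm
    simp only at hm
    subst hm
    obtain ⟨v, hv⟩ := h2
    exact Part.dom_iff_mem.2 ⟨_, StateTransition.mem_eval.2 ⟨hv, by simp⟩⟩
  · intro h
    obtain ⟨b, hb⟩ := Part.dom_iff_mem.1 h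
    obtain ⟨hb1, hb2⟩ := StateTransition.mem_eval.1 hb
    obtain ⟨m, hm⟩ := ustep_reaches hb1
    refine ⟨m, ?_⟩
    obtain ⟨l, v, T⟩ := b
    cases l with
    | some l => simp [TM2.step] at hb2
    | none =>
      exact congrArg Prod.fst hm

/-! ### Coding of stacks by numbers -/

/-- digits -/
def dig : Γ' → ℕ
  | .consₗ => 1
  | .cons => 2
  | .bit0 => 3
  | .bit1 => 4

/-- code of a stack -/
def enc : List Γ' → ℕ
  | [] => 0
  | a :: l => 5 * enc l + dig a

/-- decoding of the top symbol -/
def dec (r : ZMod 5) : Option Γ' :=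
  if r = 1 then some .consₗ else if r = 2 then some .cons else if r = 3 then some .bit0
  else if r = 4 then some .bit1 else none

theorem dec_dig (a : Γ') : dec (dig a : ZMod 5) = some a := by
  cases a <;> simp only [dig] <;> decide

theorem dec_enc (l : List Γ') : dec (enc l : ZMod 5) = l.head? := by
  cases l with
  | nil => decide
  | cons a l =>
    have h5 : ((5 : ℕ) : ZMod 5) = 0 := by decide
    rw [enc, Nat.cast_add, Nat.cast_mul, h5, zero_mul, zero_add, dec_dig]
    rfl

theorem dig_lt (a : Γ') : dig a < 5 := by cases a <;> simp [dig]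

theorem enc_tail (l : List Γ') : enc l.tail = enc l / 5 := by
  cases l with
  | nil => rfl
  | cons a l =>
    have := dig_lt a
    simp only [List.tail_cons, enc]
    omega

instance fintypeK' : Fintype K' := ⟨{.main, .rev, .aux, .stack}, by intro x; cases x <;> simp⟩

/-- the counters that represent the stacks and the time -/
def ctr (T : Stk) (t : ℕ) : Option K' → ℕ
  | none => t
  | some k => enc (T k)

/-- control states supported by a finite set of labels -/
def supp (F : Finset Λ') : Set QS :=
  {s | ∀ q v, s = some (q, v) → ∃ l ∈ F, q ∈ TM2.stmts₁ (tr l)}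

theorem supp_finite (F : Finset Λ') : (supp F).Finite := by
  classical
  have hΓ : (Set.univ : Set (Option Γ')).Finite := Set.finite_univ
  let A : Set SS := ⋃ l ∈ F, (TM2.stmts₁ (tr l) : Set SS)
  have hA : A.Finite := Set.Finite.biUnion (Finset.finite_toSet F) fun l _ => Finset.finite_toSet _
  refine Set.Finite.subset (((hA.prod hΓ).image some).insert none) ?_
  intro s hs
  rcases s with _ | ⟨q, v⟩
  · exact Or.inl rfl
  · right
    refine ⟨(q, v), ⟨?_, Set.mem_univ _⟩, rfl⟩
    obtain ⟨l, hl, hq⟩ := hs q v rfl
    simp only [A, Set.mem_iUnion]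
    exact ⟨l, hl, hq⟩

theorem nxtS_mem {F : Finset Λ'} (hF : ∀ l ∈ F, TM2.SupportsStmt F (tr l)) {s : QS}
    (hs : s ∈ supp F) (h : K' → Option Γ') : nxtS s h ∈ supp F := by
  rcases s with _ | ⟨q, v⟩
  · intro q v h; simp [nxtS] at h
  · obtain ⟨l, hl, hq⟩ := hs q v rfl
    have key : ∀ q' v', q' ∈ TM2.stmts₁ q → (some (q', v') : QS) ∈ supp F := by
      intro q' v' h1 q'' v'' h2
      simp only [Option.some.injEq, Prod.mk.injEq] at h2
      obtain ⟨rfl, rfl⟩ := h2
      exact ⟨l, hl, TM2.stmts₁_trans hq h1⟩
    cases q with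
    | push k f q => exact key _ _ (by simp [TM2.stmts₁, TM2.stmts₁_self])
    | peek k f q => exact key _ _ (by simp [TM2.stmts₁, TM2.stmts₁_self])
    | pop k f q => exact key _ _ (by simp [TM2.stmts₁, TM2.stmts₁_self])
    | load f q => exact key _ _ (by simp [TM2.stmts₁, TM2.stmts₁_self])
    | branch f q₁ q₂ =>
      refine key _ _ ?_
      cases f v <;> simp [TM2.stmts₁, TM2.stmts₁_self]
    | goto f =>
      intro q'' v'' h2
      simp only [nxtS, Option.some.injEq, Prod.mk.injEq] at h2
      obtain ⟨rfl, rfl⟩ := h2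
      have h3 := TM2.stmts₁_supportsStmt_mono hq (hF l hl)
      exact ⟨f v, h3 v, TM2.stmts₁_self⟩
    | halt => intro q v h; simp [nxtS] at h

/-- the counter machine -/
def mach (F : Finset Λ') (hF : ∀ l ∈ F, TM2.SupportsStmt F (tr l)) : CM (supp F) (Option K') where
  nxt q r := ⟨nxtS q.1 fun k => dec (r (some k)), nxtS_mem hF q.2 _⟩
  al q _ j := match j with
    | none => 5
    | some k => match opS q.1 k with
      | none => 5
      | some none => 1
      | some (some _) => 25
  be q r j := match j with
    | none => (r none).val + (if q.1.isSome then 1 else 0)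
    | some k => match opS q.1 k with
      | none => (r (some k)).val
      | some none => 0
      | some (some a) => 5 * (r (some k)).val + dig a

theorem mach_step {F : Finset Λ'} (hF : ∀ l ∈ F, TM2.SupportsStmt F (tr l)) (q : supp F) (T : Stk)
    (t : ℕ) : (((mach F hF).step (q, ctr T t)).1.1, ((mach F hF).step (q, ctr T t)).2) =
      ((ustep (q.1, T)).1, ctr (ustep (q.1, T)).2 (t + if q.1.isSome then 1 else 0)) := by
  refine Prod.ext ?_ ?_
  · simp only [CM.step, mach, ustep]
    congr 1
    funext k
    exact dec_enc _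
  · funext j
    rcases j with _ | k
    · simp only [CM.step, mach, ctr, ZMod.val_natCast]
      omega
    · simp only [CM.step, mach, ctr, ustep, ZMod.val_natCast]
      rcases h : opS q.1 k with _ | _ | a
      · simp only [applyOp]; omega
      · simp only [applyOp, enc_tail]; omega
      · simp only [applyOp, enc]; omega

theorem mach_iterate {F : Finset Λ'} (hF : ∀ l ∈ F, TM2.SupportsStmt F (tr l)) (q : supp F)
    (T : Stk) (i : ℕ) : ∃ t, (((mach F hF).step^[i] (q, ctr T 0)).1.1,
      ((mach F hF).step^[i] (q, ctr T 0)).2) =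
      ((ustep^[i] (q.1, T)).1, ctr (ustep^[i] (q.1, T)).2 t) ∧
      ((∀ m < i, (ustep^[m] (q.1, T)).1.isSome) → t = i) := by
  induction i with
  | zero => exact ⟨0, rfl, fun _ => rfl⟩
  | succ i ih =>
    obtain ⟨t, ht, ht'⟩ := ih
    rcases hc : (mach F hF).step^[i] (q, ctr T 0) with ⟨q₁, n₁⟩
    rcases hx : ustep^[i] (q.1, T) with ⟨s₁, T₁⟩
    rw [hc, hx] at ht
    simp only [Prod.mk.injEq] at ht
    obtain ⟨h1, h2⟩ := ht
    subst h2
    have h3 := mach_step hF q₁ T₁ t
    rw [Function.iterate_succ_apply', Function.iterate_succ_apply', hc, hx, ← h1]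
    refine ⟨_, h3, fun h4 => ?_⟩
    have h5 := h4 i (by omega)
    rw [hx] at h5
    simp only at h5
    rw [h1, if_pos h5, ht' fun m hm => h4 m (by omega)]

theorem mach_injective_iff {F : Finset Λ'} (hF : ∀ l ∈ F, TM2.SupportsStmt F (tr l)) (q : supp F)
    (T : Stk) : ¬ (Function.Injective fun i : ℕ => (mach F hF).step^[i] (q, ctr T 0)) ↔
      ∃ m, (ustep^[m] (q.1, T)).1 = none := by
  constructor
  · intro h
    by_contra h1
    push Not at h1
    apply h
    intro i j hij
    obtain ⟨t, ht, ht'⟩ := mach_iterate hF q T i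
    obtain ⟨s, hs, hs'⟩ := mach_iterate hF q T j
    have h2 : t = i := ht' fun m _ => Option.ne_none_iff_isSome.1 (h1 m)
    have h3 : s = j := hs' fun m _ => Option.ne_none_iff_isSome.1 (h1 m)
    simp only at hij
    rw [hij, hs] at ht
    have h4 := congrFun (congrArg Prod.snd ht) none
    simp only [ctr] at h4
    omega
  · rintro ⟨m, hm⟩ h
    obtain ⟨t, ht, _⟩ := mach_iterate hF q T m
    rcases hc : (mach F hF).step^[m] (q, ctr T 0) with ⟨q₁, n₁⟩
    rcases hx : ustep^[m] (q.1, T) with ⟨s₁, T₁⟩
    rw [hc, hx] at ht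
    rw [hx] at hm
    simp only at hm
    subst hm
    simp only [Prod.mk.injEq] at ht
    obtain ⟨h1, rfl⟩ := ht
    have h3 := mach_step hF q₁ T₁ t
    rw [h1] at h3
    simp only [Option.isSome_none, Bool.false_eq_true, if_false, add_zero, ustep_none,
      Prod.mk.injEq] at h3
    have h4 : (mach F hF).step (q₁, ctr T₁ t) = (q₁, ctr T₁ t) := by
      refine Prod.ext (Subtype.ext ?_) h3.2
      rw [h3.1, h1]
    have h5 := @h (m + 1) m (by simp only; rw [Function.iterate_succ_apply', hc, h4])
    omega

/-- Every partial recursive function is simulated by a counter machine modulo five. -/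
theorem exists_mach (f : ℕ →. ℕ) (hf : Partrec f) :
    ∃ (F : Finset Λ') (hF : ∀ l ∈ F, TM2.SupportsStmt F (tr l)) (q : supp F), ∀ n : ℕ,
      (f n).Dom ↔ ¬ Function.Injective fun i : ℕ =>
        (mach F hF).step^[i] (q, ctr (K'.elim (trList [n]) [] [] []) 0) := by
  have h1 : Nat.Partrec' (fun v : List.Vector ℕ 1 => f v.head) :=
    Nat.Partrec'.part_iff₁.2 hf
  obtain ⟨c, hc⟩ := ToPartrec.Code.exists_code h1
  have hsup := tr_supports c Cont'.halt
  have hmem : trNormal c Cont'.halt ∈ codeSupp c Cont'.halt := hsup.1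
  refine ⟨codeSupp c Cont'.halt, hsup.2, ⟨some (tr (trNormal c Cont'.halt), none), ?_⟩,
    fun n => ?_⟩
  · intro q v h
    simp only [Option.some.injEq, Prod.mk.injEq] at h
    obtain ⟨rfl, rfl⟩ := h
    exact ⟨_, hmem, TM2.stmts₁_self⟩
  · rw [mach_injective_iff, halts_iff]
    have heval : StateTransition.eval (TM2.step tr) (init c [n]) = halt <$> c.eval [n] :=
      tr_eval c [n]
    have hcn : c.eval [n] = (pure <$> f n : Part (List ℕ)) := hc ⟨[n], rfl⟩
    have : (⟨some (trNormal c Cont'.halt), none, K'.elim (trList [n]) [] [] []⟩ : CC) =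
      init c [n] := rfl
    rw [this, heval, hcn]
    rfl

end Pool.Agent.Lib.MP_d61eec_lc
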