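import Pool.Agent.Lib.MP_d61eec_lc.TM

/-!
# Computability of the reduction
-/

set_option autoImplicit false

namespace Pool.Agent.Lib.MP_d61eec_lc

open FreeGroup Turing PartrecToTM2

section Words

variable {Y : Type} [DecidableEq Y] [Primcodable Y]

/-- one step of the reduction of words -/
def redStep (x : Y × Bool) (l : List (Y × Bool)) : List (Y × Bool) :=
  List.casesOn l [x] fun hd2 tl2 => if x.1 = hd2.1 ∧ x.2 = not hd2.2 then tl2 else x :: hd2 :: tl2

theorem redStep_primrec : Primrec₂ (redStep : Y × Bool → List (Y × Bool) → List (Y × Bool)) := by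
  have hh : Primrec₂ fun (q : (Y × Bool) × List (Y × Bool)) (r : (Y × Bool) × List (Y × Bool)) =>
      if q.1.1 = r.1.1 ∧ q.1.2 = not r.1.2 then r.2 else q.1 :: r.1 :: r.2 := by
    have g1 : Primrec fun q : ((Y × Bool) × List (Y × Bool)) × ((Y × Bool) × List (Y × Bool)) =>
      q.1.1 := Primrec.fst.comp Primrec.fst
    have g2 : Primrec fun q : ((Y × Bool) × List (Y × Bool)) × ((Y × Bool) × List (Y × Bool)) =>
      q.2.1 := Primrec.fst.comp Primrec.snd
    have g3 : Primrec fun q : ((Y × Bool) × List (Y × Bool)) × ((Y × Bool) × List (Y × Bool)) =>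
      q.2.2 := Primrec.snd.comp Primrec.snd
    refine Primrec.ite ?_ g3 (Primrec.list_cons.comp g1 (Primrec.list_cons.comp g2 g3))
    exact (Primrec.eq.comp (Primrec.fst.comp g1) (Primrec.fst.comp g2)).and
      (Primrec.eq.comp (Primrec.snd.comp g1) (Primrec.not.comp (Primrec.snd.comp g2)))
  exact Primrec.list_casesOn (f := fun q : (Y × Bool) × List (Y × Bool) => q.2)
    (g := fun q => [q.1]) Primrec.snd
    (Primrec.list_cons.comp Primrec.fst (Primrec.const [])) hh

theorem reduce_primrec : Primrec (FreeGroup.reduce : List (Y × Bool) → List (Y × Bool)) := by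
  have hstep : Primrec₂ fun (_ : List (Y × Bool)) (p : (Y × Bool) × List (Y × Bool)) =>
      redStep p.1 p.2 :=
    redStep_primrec.comp (Primrec.fst.comp Primrec.snd) (Primrec.snd.comp Primrec.snd)
  refine (Primrec.list_foldr Primrec.id (Primrec.const []) hstep).of_eq fun l => ?_
  induction l with
  | nil => rfl
  | cons x l ih =>
    rw [id, List.foldr_cons]
    rw [id] at ih
    rw [ih, FreeGroup.reduce.cons]
    rfl

omit [DecidableEq Y] in
theorem invRev_primrec : Primrec (FreeGroup.invRev : List (Y × Bool) → List (Y × Bool)) := by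
  unfold FreeGroup.invRev
  refine Primrec.list_reverse.comp (Primrec.list_map Primrec.id ?_)
  exact Primrec.pair (Primrec.fst.comp Primrec.snd) (Primrec.not.comp (Primrec.snd.comp Primrec.snd))

/-- functions `ℕ → FreeGroup Y` whose reduced words are primitive recursive -/
def PR (f : ℕ → FreeGroup Y) : Prop := Primrec fun n => (f n).toWord

theorem PR.const (x : FreeGroup Y) : PR fun _ => x := Primrec.const _

theorem PR.mul {f g : ℕ → FreeGroup Y} (hf : PR f) (hg : PR g) : PR fun n => f n * g n := by
  unfold PR
  simp only [toWord_mul]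
  exact reduce_primrec.comp (Primrec.list_append.comp hf hg)

theorem PR.inv {f : ℕ → FreeGroup Y} (hf : PR f) : PR fun n => (f n)⁻¹ := by
  unfold PR
  simp only [toWord_inv]
  exact invRev_primrec.comp hf

theorem PR.pow (x : FreeGroup Y) : PR fun n => x ^ n := by
  have h : Primrec fun n : ℕ => (n.rec [] fun _ ih => FreeGroup.reduce (x.toWord ++ ih) :
      List (Y × Bool)) := by
    refine Primrec.nat_rec' (f := fun n : ℕ => n) (g := fun _ => ([] : List (Y × Bool)))
      (h := fun _ p => FreeGroup.reduce (x.toWord ++ p.2)) Primrec.id (Primrec.const []) ?_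
    exact reduce_primrec.comp (Primrec.list_append.comp (Primrec.const _)
      (Primrec.snd.comp Primrec.snd))
  refine h.of_eq fun n => ?_
  induction n with
  | zero => simp
  | succ n ih =>
    show FreeGroup.reduce (x.toWord ++ _) = (x ^ (n + 1)).toWord
    rw [pow_succ', toWord_mul]
    exact congrArg _ (congrArg _ ih)

theorem PR.comp {f : ℕ → FreeGroup Y} (hf : PR f) {g : ℕ → ℕ} (hg : Primrec g) :
    PR fun n => f (g n) := by
  unfold PR at hf ⊢
  exact Primrec.comp (f := fun n => (f n).toWord) hf hg

end Words

/-! ### the code of the input -/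

theorem trNat_even {n : ℕ} (hn : 0 < n) : trNat (2 * n) = Γ'.bit0 :: trNat n := by
  have h1 : ((2 * n : ℕ) : Num) = (n : Num).bit0 := by
    rw [← Num.bit0_of_bit0]
    push_cast
    ring
  unfold trNat
  rw [h1]
  rcases hp : (n : Num) with _ | p
  · exfalso
    have h0 : (n : Num) = ((0 : ℕ) : Num) := by rw [hp]; rfl
    have := congrArg (fun x : Num => (x : ℕ)) h0
    simp at this
    omega
  · rfl

theorem trNat_odd (n : ℕ) : trNat (2 * n + 1) = Γ'.bit1 :: trNat n := by
  have h1 : ((2 * n + 1 : ℕ) : Num) = (n : Num).bit1 := by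
    rw [← Num.bit1_of_bit1]
    push_cast
    ring
  unfold trNat
  rw [h1]
  rcases (n : Num) with _ | p <;> rfl

/-- code of the input stack -/
def inp (n : ℕ) : ℕ := enc (trList [n])

theorem inp_zero : inp 0 = 2 := rfl

theorem inp_even {n : ℕ} (hn : 0 < n) : inp (2 * n) = 5 * inp n + 3 := by
  simp only [inp, trList, trNat_even hn, List.cons_append, enc, dig]

theorem inp_odd (n : ℕ) : inp (2 * n + 1) = 5 * inp n + 4 := by
  simp only [inp, trList, trNat_odd, List.cons_append, enc, dig]

theorem inp_primrec : Primrec inp := by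
  let g : Unit → List ℕ → Option ℕ := fun _ l =>
    if l.length = 0 then some 2
    else (l[l.length / 2]?).map fun x => 5 * x + (if l.length % 2 = 0 then 3 else 4)
  have hg : Primrec₂ g := by
    refine Primrec.ite ?_ (Primrec.const _) ?_
    · exact Primrec.eq.comp (Primrec.list_length.comp Primrec.snd) (Primrec.const 0)
    · refine Primrec.option_map ?_ ?_
      · exact Primrec.list_getElem?.comp Primrec.snd
          (Primrec.nat_div.comp (Primrec.list_length.comp Primrec.snd) (Primrec.const 2))
      · refine Primrec.nat_add.comp (Primrec.nat_mul.comp (Primrec.const 5) Primrec.snd)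
          (Primrec.ite ?_ (Primrec.const 3) (Primrec.const 4))
        exact Primrec.eq.comp (Primrec.nat_mod.comp (Primrec.list_length.comp
          (Primrec.snd.comp Primrec.fst)) (Primrec.const 2)) (Primrec.const 0)
  have h := Primrec.nat_strong_rec (fun (_ : Unit) n => inp n) hg (by
    intro _ n
    simp only [g, List.length_map, List.length_range]
    rcases Nat.eq_zero_or_pos n with h0 | h0
    · subst h0; simp [inp_zero]
    · rw [if_neg (by omega)]
      rw [List.getElem?_map, List.getElem?_range (by omega)]
      simp only [Option.map_some, Option.some.injEq]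
      rcases Nat.even_or_odd' n with ⟨m, rfl | rfl⟩
      · rw [show 2 * m / 2 = m by omega, inp_even (by omega)]
        simp
      · rw [show (2 * m + 1) / 2 = m by omega, inp_odd]
        simp)
  exact h.comp (Primrec.const ()) Primrec.id

end Pool.Agent.Lib.MP_d61eec_lc
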