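import Pool.Agent.Lib.MP_d61eec_lc.Orient

/-!
# Queue automata with invertible reading and equalisers

An automaton whose letters act as partial injections on its states defines a monomorphism `φ` of
free groups, its output function a second homomorphism `ψ`, and the stabiliser of a configuration
for the action `g ↦ (φ x)⁻¹ * g * ψ x` is governed by the run of the queue automaton.
-/

set_option autoImplicit false

namespace Pool.Agent.Lib.MP_d61eec_lc

open FreeGroup

section Words

variable {Y : Type*} [DecidableEq Y]

theorem toWord_mk_mul_of_ne {l : Y × Bool} {g : FreeGroup Y}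
    (h : g.toWord.head? ≠ some (l.1, !l.2)) : (mk [l] * g).toWord = l :: g.toWord := by
  have h1 : (mk [l] * g) = mk (l :: g.toWord) := by
    conv_lhs => rw [← mk_toWord (x := g), mul_mk]
    rfl
  rw [h1, toWord_mk]
  apply IsReduced.reduce_eq
  have h2 := isReduced_toWord (x := g)
  rcases hg : g.toWord with _ | ⟨y, t⟩
  · exact IsReduced.singleton
  · rw [hg] at h h2
    rw [isReduced_cons_cons]
    refine ⟨fun h3 => ?_, h2⟩
    by_contra h4
    apply h
    simp only [List.head?_cons, Option.some.injEq]
    ext
    · exact h3.symm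
    · simp only
      revert h4
      cases l.2 <;> cases y.2 <;> simp

theorem toWord_mk_mul_cons {l : Y × Bool} {g : FreeGroup Y} {t : List (Y × Bool)}
    (h : g.toWord = (l.1, !l.2) :: t) : (mk [l] * g).toWord = t := by
  have h2 := isReduced_toWord (x := g)
  have h1 : mk [l] * g = mk t := by
    rw [← mk_toWord (x := g), h, show (l.1, !l.2) :: t = [(l.1, !l.2)] ++ t from rfl, ← mul_mk]
    have : (mk [(l.1, !l.2)] : FreeGroup Y) = (mk [l])⁻¹ := by rw [inv_mk]; rfl
    rw [this]
    group
  rw [h1, toWord_mk]
  apply IsReduced.reduce_eq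
  rw [h] at h2
  exact List.IsChain.tail h2

theorem prefix_mul_mk {p : List (Y × Bool)} {l y : Y × Bool} {g : FreeGroup Y}
    (h : p ++ [l] <+: g.toWord) (hy : y ≠ (l.1, !l.2)) : p ++ [l] <+: (g * mk [y]).toWord := by
  have h2 := isReduced_toWord (x := g)
  by_cases hl : g.toWord.getLast? = some (y.1, !y.2)
  · obtain ⟨t, ht⟩ : ∃ t, g.toWord = t ++ [(y.1, !y.2)] := by
      rw [List.getLast?_eq_some_iff] at hl
      exact hl
    have h1 : g * mk [y] = mk t := by
      rw [← mk_toWord (x := g), ht, ← mul_mk]
      have : (mk [(y.1, !y.2)] : FreeGroup Y) = (mk [y])⁻¹ := by rw [inv_mk]; rfl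
      rw [this]
      group
    have h3 : (g * mk [y]).toWord = t := by
      rw [h1, toWord_mk]
      apply IsReduced.reduce_eq
      rw [ht] at h2
      exact (List.isChain_append.1 h2).1
    rw [h3]
    rw [ht, List.prefix_concat_iff] at h
    rcases h with h | h
    · exfalso
      have h4 := (List.append_inj' h rfl).2
      simp only [List.cons.injEq, and_true] at h4
      apply hy
      rw [h4]
      simp
    · exact h
  · have h1 : g * mk [y] = mk (g.toWord ++ [y]) := by
      rw [← mul_mk, mk_toWord]
    have h3 : (g * mk [y]).toWord = g.toWord ++ [y] := by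
      rw [h1, toWord_mk]
      apply IsReduced.reduce_eq
      unfold FreeGroup.IsReduced
      rw [List.isChain_append]
      refine ⟨h2, List.isChain_singleton _, ?_⟩
      intro a ha b hb h5
      simp only [List.head?_cons, Option.mem_def, Option.some.injEq] at hb
      subst hb
      by_contra h6
      apply hl
      rw [Option.mem_def] at ha
      rw [ha, Option.some.injEq]
      ext
      · exact h5
      · simp only
        revert h6
        cases a.2 <;> cases y.2 <;> simp
    rw [h3]
    exact h.trans (List.prefix_append _ _)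

theorem prefix_mul_list {p : List (Y × Bool)} {l : Y × Bool} : ∀ (o : List (Y × Bool))
    {g : FreeGroup Y} (_ : p ++ [l] <+: g.toWord) (_ : ∀ y ∈ o, y ≠ (l.1, !l.2)),
    p ++ [l] <+: (g * mk o).toWord := by
  intro o
  induction o with
  | nil =>
    intro g h _
    rwa [← one_eq_mk, mul_one]
  | cons y o ih =>
    intro g h ho
    rw [show y :: o = [y] ++ o from rfl, ← mul_mk, ← mul_assoc]
    exact ih (prefix_mul_mk h (ho y (by simp))) (fun z hz => ho z (by simp [hz]))

end Words

/-- Finite automata on states `P` with edges `E` labelled by letters in `X`, deterministic and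
codeterministic, with outputs in the free monoid on `X`; the output of an edge does not contain
the label of the edge. -/
structure Auto (P X E : Type) where
  make ::
  src : E → P
  tgt : E → P
  lab : E → X
  out : E → List X
  det : ∀ e e', src e = src e' → lab e = lab e' → e = e'
  codet : ∀ e e', tgt e = tgt e' → lab e = lab e' → e = e'
  noself : ∀ e, lab e ∉ out e

variable {P X E : Type} [DecidableEq P] [DecidableEq X]

/-- positive words -/
def pos (w : List X) : FreeGroup (X ⊕ P) := mk (w.map fun x => (Sum.inl x, true))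

/-- the generator that belongs to a state -/
def sta (p : P) : FreeGroup (X ⊕ P) := mk [(Sum.inr p, true)]

namespace Auto

variable (M : Auto P X E)

/-- the homomorphism `φ` -/
def phi : FreeGroup E →* FreeGroup (X ⊕ P) :=
  FreeGroup.lift fun e => sta (M.src e) * mk [(Sum.inl (M.lab e), true)] * (sta (M.tgt e))⁻¹

/-- the homomorphism `ψ` -/
def psi : FreeGroup E →* FreeGroup (X ⊕ P) := FreeGroup.lift fun e => pos (M.out e)

/-- initial state of a signed edge -/
def ini (z : E × Bool) : P := if z.2 then M.src z.1 else M.tgt z.1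

/-- terminal state of a signed edge -/
def ter (z : E × Bool) : P := if z.2 then M.tgt z.1 else M.src z.1

/-- forward edges -/
def Fwd (g : FreeGroup (X ⊕ P)) (z : E × Bool) : Prop :=
  [(Sum.inr (M.ini z), true), (Sum.inl (M.lab z.1), z.2)] <+: g.toWord

omit [DecidableEq P] [DecidableEq X] in
theorem phi_mk (z : E × Bool) : (M.phi (mk [z]))⁻¹ =
    mk [(Sum.inr (M.ter z), true)] * (mk [(Sum.inl (M.lab z.1), !z.2)] *
      (mk [(Sum.inr (M.ini z), false)])) := by
  obtain ⟨e, b⟩ := z
  have hinv : ∀ p : P, (mk [(Sum.inr p, false)] : FreeGroup (X ⊕ P)) = (sta p)⁻¹ := by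
    intro p; rw [sta, inv_mk]; rfl
  have hinv' : ∀ x : X, (mk [(Sum.inl x, false)] : FreeGroup (X ⊕ P)) =
      (mk [(Sum.inl x, true)])⁻¹ := by
    intro p; rw [inv_mk]; rfl
  cases b
  · simp only [phi, lift_mk, List.map_cons, List.map_nil, List.prod_cons, List.prod_nil,
      mul_one, ini, ter, hinv, Bool.not_false]
    simp [sta, invRev]
  · simp only [phi, lift_mk, List.map_cons, List.map_nil, List.prod_cons, List.prod_nil,
      mul_one, ini, ter, hinv, Bool.not_true, hinv']
    simp [sta, invRev]

theorem orient_aux (a c : P) (x : X) (b : Bool) (g : FreeGroup (X ⊕ P))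
    (o : List ((X ⊕ P) × Bool)) (ho : ∀ y ∈ o, y ≠ (Sum.inl x, b))
    (hg : ¬ [(Sum.inr a, true), (Sum.inl x, b)] <+: g.toWord) :
    [(Sum.inr c, true), (Sum.inl x, !b)] <+:
      (mk [(Sum.inr c, true)] * (mk [(Sum.inl x, !b)] * (mk [(Sum.inr a, false)])) * g *
        mk o).toWord := by
  set g₁ := mk [(Sum.inr a, false)] * g with hg₁
  have h1 : g₁.toWord.head? ≠ some (Sum.inl x, !(!b)) := by
    rcases hw : g.toWord with _ | ⟨y, t⟩
    · rw [hg₁, toWord_mk_mul_of_ne (by simp [hw])]
      simp
    · by_cases hy : y = (Sum.inr a, true)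
      · subst hy
        have : g₁.toWord = t := toWord_mk_mul_cons (by simp [hw])
        rw [this]
        intro h
        apply hg
        rw [hw]
        cases t with
        | nil => simp at h
        | cons z t =>
          simp only [List.head?_cons, Option.some.injEq, Bool.not_not] at h
          subst h
          exact ⟨t, rfl⟩
      · rw [hg₁, toWord_mk_mul_of_ne (by simpa [hw] using hy)]
        simp
  have h2 : (mk [(Sum.inl x, !b)] * g₁).toWord = (Sum.inl x, !b) :: g₁.toWord :=
    toWord_mk_mul_of_ne h1
  have h3 : (mk [(Sum.inr c, true)] * (mk [(Sum.inl x, !b)] * g₁)).toWord =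
      (Sum.inr c, true) :: (Sum.inl x, !b) :: g₁.toWord := by
    rw [toWord_mk_mul_of_ne (by rw [h2]; simp), h2]
  have h4 : mk [(Sum.inr c, true)] * (mk [(Sum.inl x, !b)] * (mk [(Sum.inr a, false)])) * g =
      (mk [(Sum.inr c, true)] * (mk [(Sum.inl x, !b)] * g₁)) := by
    rw [hg₁]; simp only [mul_assoc]
  rw [h4]
  refine prefix_mul_list (p := [(Sum.inr c, true)]) (l := (Sum.inl x, !b)) o ?_ ?_
  · rw [h3]; exact ⟨g₁.toWord, rfl⟩
  · intro y hy; simpa using ho y hy

theorem uniq (g : FreeGroup (X ⊕ P)) (z z' : E × Bool) (h : M.Fwd g z) (h' : M.Fwd g z') :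
    z = z' := by
  unfold Fwd at h h'
  have h1 := List.prefix_of_prefix_length_le h h' (by simp)
  have h2 := h1.eq_of_length (by simp)
  simp only [List.cons.injEq, Prod.mk.injEq, Sum.inr.injEq, Sum.inl.injEq, and_true] at h2
  obtain ⟨h3, h4, h5⟩ := h2
  obtain ⟨e, b⟩ := z
  obtain ⟨e', b'⟩ := z'
  simp only at h4 h5
  subst h5
  congr 1
  cases b
  · exact M.codet _ _ (by simpa [ini] using h3) h4
  · exact M.det _ _ (by simpa [ini] using h3) h4

omit [DecidableEq P] [DecidableEq X] in
theorem ini_not (z : E × Bool) : M.ini (z.1, !z.2) = M.ter z := by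
  obtain ⟨e, b⟩ := z
  cases b <;> simp [ini, ter]

theorem orientation : Orientation (fun z : E × Bool => (z.1, !z.2)) (stp M.phi M.psi) M.Fwd where
  inv_inv z := by simp
  st_inv z g := stp_inv _ _ z g
  uniq := M.uniq
  orient g z h := by
    unfold stp
    rw [phi_mk]
    unfold Fwd
    rw [ini_not]
    obtain ⟨e, b⟩ := z
    have h5 : ∃ o : List ((X ⊕ P) × Bool), M.psi (mk [(e, b)]) = mk o ∧
        ∀ y ∈ o, y ≠ (Sum.inl (M.lab e), b) := by
      cases b
      · refine ⟨invRev ((M.out e).map fun x => (Sum.inl x, true)), ?_, ?_⟩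
        · simp [psi, pos]
        · intro y hy
          simp only [invRev, List.map_map, List.mem_reverse, List.mem_map] at hy
          obtain ⟨x, hx, rfl⟩ := hy
          intro h6
          simp only [Function.comp, Prod.mk.injEq, Sum.inl.injEq] at h6
          exact M.noself e (h6.1 ▸ hx)
      · refine ⟨(M.out e).map fun x => (Sum.inl x, true), ?_, ?_⟩
        · simp [psi, pos]
        · intro y hy
          simp only [List.mem_map] at hy
          obtain ⟨x, hx, rfl⟩ := hy
          intro h6
          simp only [Prod.mk.injEq, Sum.inl.injEq] at h6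
          exact M.noself e (h6.1 ▸ hx)
    obtain ⟨o, ho, ho'⟩ := h5
    rw [ho]
    exact orient_aux _ _ _ _ _ _ ho' h

theorem orientation_one :
    Orientation (fun z : E × Bool => (z.1, !z.2)) (stp M.phi 1) M.Fwd where
  inv_inv z := by simp
  st_inv z g := stp_inv _ _ z g
  uniq := M.uniq
  orient g z h := by
    unfold stp
    rw [phi_mk]
    unfold Fwd
    rw [ini_not]
    have := orient_aux (M.ini z) (M.ter z) (M.lab z.1) z.2 g [] (by simp) h
    rw [← one_eq_mk] at this
    exact this

theorem phi_injective : Function.Injective M.phi := by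
  classical
  refine M.orientation_one.injective_of_sink (g₀ := 1) ?_
  intro z h
  have := h.length_le
  simp at this

end Auto

end Pool.Agent.Lib.MP_d61eec_lc
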