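import Pool.Agent.Lib.MP_d61eec_lc.Auto

/-!
# Free groups of finite rank embed in free groups of rank at least two
-/

set_option autoImplicit false

namespace Pool.Agent.Lib.MP_d61eec_lc

open FreeGroup

variable {Y : Type*} [DecidableEq Y]

/-- the homomorphism `i ↦ a ^ i * b * a ^ (-i)` -/
def emb (a b : Y) (N : ℕ) : FreeGroup (Fin N) →* FreeGroup Y :=
  FreeGroup.lift fun i => of a ^ (i : ℕ) * of b * (of a ^ (i : ℕ))⁻¹

/-- forward edges -/
def embFwd (a b : Y) (N : ℕ) (g : FreeGroup Y) (z : Fin N × Bool) : Prop :=
  List.replicate z.1 (a, true) ++ [(b, z.2)] <+: g.toWord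

theorem emb_aux {a b : Y} (hab : a ≠ b) (β : Bool) : ∀ (i : ℕ) (g : FreeGroup Y),
    ¬ List.replicate i (a, true) ++ [(b, β)] <+: g.toWord →
    (List.replicate i (a, true) ++ [(b, !β)] <+:
      ((of a ^ i * mk [(b, !β)] * (of a ^ i)⁻¹) * g).toWord) := by
  intro i
  induction i with
  | zero =>
    intro g hg
    simp only [List.replicate_zero, List.nil_append, pow_zero, one_mul, inv_one, mul_one] at hg ⊢
    rw [toWord_mk_mul_of_ne]
    · exact ⟨_, rfl⟩
    · intro h
      apply hg
      simp only [Bool.not_not] at h
      cases hw : g.toWord with
      | nil => rw [hw] at h; simp at h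
      | cons y t =>
        rw [hw] at h
        simp only [List.head?_cons, Option.some.injEq] at h
        subst h
        exact ⟨t, rfl⟩
  | succ i ih =>
    intro g hg
    have hinv : (mk [(a, false)] : FreeGroup Y) = (of a)⁻¹ := by rw [of, inv_mk]; rfl
    have h1 : ¬ List.replicate i (a, true) ++ [(b, β)] <+: (mk [(a, false)] * g).toWord := by
      by_cases h : g.toWord.head? = some (a, true)
      · cases hw : g.toWord with
        | nil => rw [hw] at h; simp at h
        | cons y t =>
          rw [hw] at h
          simp only [List.head?_cons, Option.some.injEq] at h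
          subst h
          rw [toWord_mk_mul_cons (l := (a, false)) (t := t) (by simp [hw])]
          intro h2
          apply hg
          rw [hw, List.replicate_succ, List.cons_append, List.cons_prefix_cons]
          exact ⟨rfl, h2⟩
      · rw [toWord_mk_mul_of_ne (by simpa using h)]
        intro h2
        cases i with
        | zero =>
          simp only [List.replicate_zero, List.nil_append, List.cons_prefix_cons] at h2
          exact hab (congrArg Prod.fst h2.1).symm
        | succ i =>
          rw [List.replicate_succ, List.cons_append, List.cons_prefix_cons] at h2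
          simp at h2
    have h2 := ih _ h1
    have h3 : of a ^ (i + 1) * mk [(b, !β)] * (of a ^ (i + 1))⁻¹ * g =
        mk [(a, true)] * (of a ^ i * mk [(b, !β)] * (of a ^ i)⁻¹ * (mk [(a, false)] * g)) := by
      rw [hinv, show (mk [(a, true)] : FreeGroup Y) = of a from rfl, pow_succ']
      group
    rw [h3, toWord_mk_mul_of_ne]
    · rw [List.replicate_succ, List.cons_append, List.cons_prefix_cons]
      exact ⟨rfl, h2⟩
    · intro h4
      cases i with
      | zero =>
        simp only [List.replicate_zero, List.nil_append] at h2
        obtain ⟨t, ht⟩ := h2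
        rw [← ht] at h4
        simp only [List.cons_append, List.nil_append, List.head?_cons, Option.some.injEq] at h4
        exact hab (congrArg Prod.fst h4).symm
      | succ i =>
        obtain ⟨t, ht⟩ := h2
        rw [← ht, List.replicate_succ] at h4
        simp at h4

omit [DecidableEq Y] in
theorem embFwd_uniq {a b : Y} (hab : a ≠ b) : ∀ (i j : ℕ) (β γ : Bool) (l : List (Y × Bool)),
    List.replicate i (a, true) ++ [(b, β)] <+: l → List.replicate j (a, true) ++ [(b, γ)] <+: l →
    i = j ∧ β = γ := by
  intro i
  induction i with
  | zero =>
    intro j β γ l h1 h2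
    cases l with
    | nil => simp at h1
    | cons y l =>
      simp only [List.replicate_zero, List.nil_append, List.cons_prefix_cons] at h1
      cases j with
      | zero =>
        simp only [List.replicate_zero, List.nil_append, List.cons_prefix_cons] at h2
        exact ⟨rfl, congrArg Prod.snd (h1.1.trans h2.1.symm)⟩
      | succ j =>
        rw [List.replicate_succ, List.cons_append, List.cons_prefix_cons] at h2
        exact absurd (congrArg Prod.fst (h2.1.trans h1.1.symm)) hab
  | succ i ih =>
    intro j β γ l h1 h2
    cases l with
    | nil => simp at h1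
    | cons y l =>
      rw [List.replicate_succ, List.cons_append, List.cons_prefix_cons] at h1
      cases j with
      | zero =>
        simp only [List.replicate_zero, List.nil_append, List.cons_prefix_cons] at h2
        exact absurd (congrArg Prod.fst (h1.1.trans h2.1.symm)) hab
      | succ j =>
        rw [List.replicate_succ, List.cons_append, List.cons_prefix_cons] at h2
        obtain ⟨h3, h4⟩ := ih j β γ l h1.2 h2.2
        exact ⟨by rw [h3], h4⟩

theorem emb_injective {a b : Y} (hab : a ≠ b) (N : ℕ) : Function.Injective (emb a b N) := by
  have h : Orientation (fun z : Fin N × Bool => (z.1, !z.2)) (stp (emb a b N) 1)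
      (embFwd a b N) := by
    refine ⟨by simp, fun z g => stp_inv _ _ z g, ?_, ?_⟩
    · intro g z z' h1 h2
      obtain ⟨h3, h4⟩ := embFwd_uniq hab _ _ _ _ _ h1 h2
      exact Prod.ext (Fin.ext h3) h4
    · intro g z h1
      have h2 := emb_aux hab z.2 z.1 g h1
      unfold embFwd stp
      have h3 : (emb a b N (mk [z]))⁻¹ = of a ^ (z.1 : ℕ) * mk [(b, !z.2)] *
          (of a ^ (z.1 : ℕ))⁻¹ := by
        obtain ⟨i, β⟩ := z
        have hinv : (mk [(b, false)] : FreeGroup Y) = (of b)⁻¹ := by rw [of, inv_mk]; rfl
        cases β
        · simp only [emb, lift_mk, List.map_cons, List.map_nil, List.prod_cons, List.prod_nil,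
            mul_one, Bool.not_false, cond_false, inv_inv]
          rfl
        · simp only [emb, lift_mk, List.map_cons, List.map_nil, List.prod_cons, List.prod_nil,
            mul_one, Bool.not_true, cond_true, hinv]
          group
      rw [h3]
      simp only [MonoidHom.one_apply, mul_one]
      exact h2
  refine h.injective_of_sink (g₀ := 1) ?_
  intro z h1
  have := h1.length_le
  simp at this

end Pool.Agent.Lib.MP_d61eec_lc
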