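import Pool.Agent.Lib.MP_d61eec_lc.Pass
import Pool.Agent.Lib.MP_d61eec_lc.Comp
import Pool.Agent.Lib.MP_d61eec_lc.Embed

/-!
# Undecidability of the Post correspondence problem for free groups
-/

set_option autoImplicit false

namespace Pool.Agent.Lib.MP_d61eec_lc

open FreeGroup Turing PartrecToTM2 Encodable

/-! ### finiteness -/

/-- description of the edges -/
def edgEquiv (Q J : Type) (k : ℕ) : Edg Q J k ≃
    (Q ⊕ (Q × (J → ZMod 5) × J) ⊕ (Q × (J → ZMod 5)) ⊕
      (Q × (J → ZMod 5) × (J → ZMod 5) × J) ⊕ (Q × (J → ZMod 5))) ⊕ Fin k where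
  toFun
    | .s q => .inl (.inl q)
    | .a q v j => .inl (.inr (.inl (q, v, j)))
    | .c q v => .inl (.inr (.inr (.inl (q, v))))
    | .b q r v j => .inl (.inr (.inr (.inr (.inl (q, r, v, j)))))
    | .e q r => .inl (.inr (.inr (.inr (.inr (q, r)))))
    | .d i => .inr i
  invFun
    | .inl (.inl q) => .s q
    | .inl (.inr (.inl (q, v, j))) => .a q v j
    | .inl (.inr (.inr (.inl (q, v)))) => .c q v
    | .inl (.inr (.inr (.inr (.inl (q, r, v, j))))) => .b q r v j
    | .inl (.inr (.inr (.inr (.inr (q, r))))) => .e q r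
    | .inr i => .d i
  left_inv := by rintro (_ | _ | _ | _ | _ | _) <;> rfl
  right_inv := by rintro ((_ | _ | _ | _ | _) | _) <;> rfl

section Fin

variable (Q J : Type) [Finite Q] [Finite J]

instance finiteEdg (k : ℕ) : Finite (Edg Q J k) := Finite.of_equiv _ (edgEquiv Q J k).symm

theorem card_edg (k : ℕ) : Nat.card (Edg Q J k) = Nat.card (Edg Q J 0) + k := by
  rw [Nat.card_congr (edgEquiv Q J k), Nat.card_congr (edgEquiv Q J 0), Nat.card_sum,
    Nat.card_sum]
  simp

instance finiteLet (k : ℕ) : Finite (Let Q J k) := by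
  let f : Q ⊕ J ⊕ Unit ⊕ J ⊕ (Q × (J → ZMod 5)) ⊕ Fin k → Let Q J k := fun x => match x with
    | .inl q => .st q
    | .inr (.inl j) => .a j
    | .inr (.inr (.inl _)) => .c
    | .inr (.inr (.inr (.inl j))) => .b j
    | .inr (.inr (.inr (.inr (.inl (q, r))))) => .e q r
    | .inr (.inr (.inr (.inr (.inr i)))) => .dum i
  refine Finite.of_surjective f ?_
  rintro (q | j | _ | j | ⟨q, r⟩ | i)
  · exact ⟨.inl q, rfl⟩
  · exact ⟨.inr (.inl j), rfl⟩
  · exact ⟨.inr (.inr (.inl ())), rfl⟩
  · exact ⟨.inr (.inr (.inr (.inl j))), rfl⟩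
  · exact ⟨.inr (.inr (.inr (.inr (.inl (q, r))))), rfl⟩
  · exact ⟨.inr (.inr (.inr (.inr (.inr i)))), rfl⟩

instance finiteSta : Finite (Sta Q J) := by
  let f : Unit ⊕ (Q × (J → ZMod 5)) ⊕ (Q × (J → ZMod 5) × (J → ZMod 5)) ⊕ Unit → Sta Q J :=
    fun x => match x with
    | .inl _ => .home
    | .inr (.inl (q, v)) => .one q v
    | .inr (.inr (.inl (q, r, v))) => .two q r v
    | .inr (.inr (.inr _)) => .dead
  refine Finite.of_surjective f ?_
  rintro (_ | ⟨q, v⟩ | ⟨q, r, v⟩ | _)
  · exact ⟨.inl (), rfl⟩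
  · exact ⟨.inr (.inl (q, v)), rfl⟩
  · exact ⟨.inr (.inr (.inl (q, r, v))), rfl⟩
  · exact ⟨.inr (.inr (.inr ())), rfl⟩

end Fin

/-! ### an undecidable set -/

/-- evaluation of the program with number `n` at `0` -/
def diag : ℕ →. ℕ := fun n => (Denumerable.ofNat Nat.Partrec.Code n).eval 0

theorem diag_partrec : Partrec diag :=
  Nat.Partrec.Code.eval_part.comp (Computable.ofNat _) (Computable.const 0)

theorem diag_undec (f : ℕ → Bool) (hf : Computable f)
    (h : ∀ n, f n = true ↔ (diag n).Dom) : False := by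
  have h1 : ComputablePred fun c : Nat.Partrec.Code => (c.eval 0).Dom := by
    rw [ComputablePred.computable_iff]
    refine ⟨fun c => f (encode c), hf.comp Computable.encode, ?_⟩
    funext c
    have := h (encode c)
    simp only [diag, Denumerable.ofNat_encode] at this
    exact propext this.symm
  exact ComputablePred.halting_problem 0 h1

/-! ### configurations -/

theorem pos_append {X P : Type} (v w : List X) :
    (pos (v ++ w) : FreeGroup (X ⊕ P)) = pos v * pos w := by
  rw [pos, pos, pos, mul_mk, List.map_append]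

theorem pos_replicate {X P : Type} (n : ℕ) (x : X) :
    (pos (List.replicate n x) : FreeGroup (X ⊕ P)) = pos [x] ^ n := by
  induction n with
  | zero => simp [pos, ← one_eq_mk]
  | succ n ih =>
    rw [pow_succ', ← ih, ← pos_append]
    rfl

theorem cfg_hc {Q J : Type} {k : ℕ} (q : Q) (n : ℕ) (j : J) : cfg (hc k q (List.replicate n j)) =
      (sta .home * pos [.st q]) * pos [.a j] ^ n * pos [.c] := by
  rw [cfg, hc]
  simp only
  rw [List.map_replicate, show (Let.st q :: (List.replicate n (Let.a j) ++ [Let.c]) :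
    List (Let Q J k)) = [Let.st q] ++ (List.replicate n (Let.a j) ++ [Let.c]) from rfl,
    pos_append, pos_append, pos_replicate]
  simp only [mul_assoc]

theorem count_rep {J : Type} [DecidableEq J] (j₀ : J) (M : ℕ) (g : J → ℕ) (h₀ : g j₀ = M)
    (h : ∀ j, j ≠ j₀ → g j = 0) : (fun j => (List.replicate M j₀).count j) = g := by
  funext j
  by_cases hj : j = j₀
  · subst hj; rw [List.count_replicate_self, h₀]
  · rw [h j hj, List.count_replicate]
    simp [Ne.symm hj]

theorem ctr_main (N : ℕ) : ctr (K'.elim (trList [N]) [] [] []) 0 (some K'.main) = inp N := rfl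

theorem ctr_of_ne (N : ℕ) (j : Option K') (h : j ≠ some K'.main) :
    ctr (K'.elim (trList [N]) [] [] []) 0 j = 0 := by
  rcases j with _ | j
  · rfl
  · cases j
    · exact absurd rfl h
    · rfl
    · rfl
    · rfl

/-- The Post correspondence problem for free groups is undecidable: there is `n₀` such that for
all ranks `n ≥ n₀` and `m ≥ 2` some fixed monomorphism `φ : F_n → F_m` has the property that no
algorithm decides for a given homomorphism `ψ : F_n → F_m` whether `φ` and `ψ` agree on some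
nontrivial element. -/
theorem pcp_undecidable : ∃ n₀ : ℕ, ∀ n ≥ n₀, ∀ m ≥ 2,
    ∃ φ : FreeGroup (Fin n) →* FreeGroup (Fin m), Function.Injective φ ∧
      ¬ ∃ A : (Fin n → List (Fin m × Bool)) → Bool, Computable A ∧
        ∀ ψ : FreeGroup (Fin n) →* FreeGroup (Fin m),
          (A (fun i => (ψ (FreeGroup.of i)).toWord) = true ↔ ∃ x, x ≠ 1 ∧ φ x = ψ x) := by
  classical
  obtain ⟨F, hF, q, hq⟩ := exists_mach diag diag_partrec
  have : Finite (supp F) := (supp_finite F).to_subtype
  refine ⟨Nat.card (Edg (supp F) (Option K') 0), fun n hn m hm => ?_⟩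
  obtain ⟨k, rfl⟩ := Nat.exists_eq_add_of_le hn
  have e : Edg (supp F) (Option K') k ≃ Fin (Nat.card (Edg (supp F) (Option K') 0) + k) :=
    Finite.equivFinOfCardEq (card_edg _ _ k)
  generalize Nat.card (Edg (supp F) (Option K') 0) + k = n at e
  have eY := Finite.equivFin (Let (supp F) (Option K') k ⊕ Sta (supp F) (Option K'))
  generalize Nat.card (Let (supp F) (Option K') k ⊕ Sta (supp F) (Option K')) = N at eY
  have hab : (⟨0, by omega⟩ : Fin m) ≠ ⟨1, by omega⟩ := by simp
  let ι : FreeGroup (Let (supp F) (Option K') k ⊕ Sta (supp F) (Option K')) →*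
      FreeGroup (Fin m) := (emb (⟨0, by omega⟩ : Fin m) ⟨1, by omega⟩ N).comp
        (freeGroupCongr eY).toMonoidHom
  have hι : Function.Injective ι :=
    (emb_injective hab N).comp (freeGroupCongr eY).injective
  let C := mach F hF
  let ε : FreeGroup (Fin n) →* FreeGroup (Edg (supp F) (Option K') k) :=
    (freeGroupCongr e.symm).toMonoidHom
  have hε : Function.Bijective ε := (freeGroupCongr e.symm).bijective
  refine ⟨ι.comp ((C.auto k).phi.comp ε), hι.comp ((C.auto k).phi_injective.comp hε.1), ?_⟩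
  rintro ⟨A, hA, hdec⟩
  let c₀ : ℕ → FreeGroup (Let (supp F) (Option K') k ⊕ Sta (supp F) (Option K')) :=
    fun N => cfg (hc k q (List.replicate (inp N) (some K'.main)))
  let ψ : ℕ → (FreeGroup (Fin n) →* FreeGroup (Fin m)) := fun N =>
    ι.comp ((MulAut.conj (c₀ N)).toMonoidHom.comp ((C.auto k).psi.comp ε))
  have key : ∀ N, (∃ x, x ≠ 1 ∧ (ι.comp ((C.auto k).phi.comp ε)) x = ψ N x) ↔ (diag N).Dom := by
    intro N
    have h1 := C.exists_iff k q (List.replicate (inp N) (some K'.main))
    rw [count_rep _ _ _ (ctr_main N) (ctr_of_ne N), ← hq N] at h1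
    rw [← h1]
    constructor
    · rintro ⟨x, hx, hx'⟩
      refine ⟨ε x, fun h => hx (hε.1 (by rw [h, _root_.map_one])), ?_⟩
      exact hι hx'
    · rintro ⟨y, hy, hy'⟩
      obtain ⟨x, rfl⟩ := hε.2 y
      refine ⟨x, fun h => hy (by rw [h, _root_.map_one]), ?_⟩
      exact congrArg ι hy'
  have hPR : ∀ i : Fin n, PR fun N => ψ N (of i) := by
    intro i
    have h1 : ∀ N, ψ N (of i) = (ι (sta .home * pos [.st q]) * ι (pos [.a (some K'.main)]) ^
        (inp N) * ι (pos [.c])) * ι ((C.auto k).psi (ε (of i))) *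
        (ι (sta .home * pos [.st q]) * ι (pos [.a (some K'.main)]) ^ (inp N) *
          ι (pos [.c]))⁻¹ := by
      intro N
      show ι (c₀ N * (C.auto k).psi (ε (of i)) * (c₀ N)⁻¹) = _
      simp only [c₀, cfg_hc, _root_.map_mul, _root_.map_inv, _root_.map_pow]
    have h2 : PR fun N => (ι (sta .home * pos [.st q]) * ι (pos [.a (some K'.main)]) ^
        (inp N) * ι (pos [.c])) :=
      ((PR.const _).mul ((PR.pow _).comp inp_primrec)).mul (PR.const _)
    have h3 := (h2.mul (PR.const (ι ((C.auto k).psi (ε (of i)))))).mul h2.inv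
    unfold PR at h3 ⊢
    exact h3.of_eq fun N => congrArg toWord (h1 N).symm
  have hcomp : Computable fun N => A fun i => (ψ N (of i)).toWord := by
    have h1 : Primrec fun N => fun i : Fin n => (ψ N (of i)).toWord := by
      rw [Primrec.fin_curry]
      have h2 : Primrec₂ fun (i : Fin n) (N : ℕ) => (ψ N (of i)).toWord := by
        rw [Primrec.fin_curry₁]
        exact hPR
      exact h2.swap
    exact hA.comp h1.to_comp
  exact diag_undec _ hcomp fun N => (hdec (ψ N)).trans (key N)

end Pool.Agent.Lib.MP_d61eec_lc
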