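import Pool.Agent.Lib.MP_d61eec_lc.Run

/-!
# Counter machines modulo five and their queue automata
-/

set_option autoImplicit false

namespace Pool.Agent.Lib.MP_d61eec_lc

open FreeGroup

/-- Counter machines with control states `Q` and counters `J`: one step depends on the control
state and on the residues of the counters modulo `5`, and replaces the counter `n j` by
`al * (n j / 5) + be`. -/
structure CM (Q J : Type) where
  nxt : Q → (J → ZMod 5) → Q
  al : Q → (J → ZMod 5) → J → ℕ
  be : Q → (J → ZMod 5) → J → ℕ

variable {Q J : Type}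

/-- one step of a counter machine -/
def CM.step (C : CM Q J) (c : Q × (J → ℕ)) : Q × (J → ℕ) :=
  (C.nxt c.1 fun j => (c.2 j : ZMod 5),
    fun j => C.al c.1 (fun j => (c.2 j : ZMod 5)) j * (c.2 j / 5) +
      C.be c.1 (fun j => (c.2 j : ZMod 5)) j)

/-- letters of the queue automaton -/
inductive Let (Q J : Type) (k : ℕ) : Type
  | st (q : Q)
  | a (j : J)
  | c
  | b (j : J)
  | e (q : Q) (r : J → ZMod 5)
  | dum (i : Fin k)

/-- states of the queue automaton -/
inductive Sta (Q J : Type) : Type
  | home
  | one (q : Q) (v : J → ZMod 5)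
  | two (q : Q) (r v : J → ZMod 5)
  | dead

/-- edges of the queue automaton -/
inductive Edg (Q J : Type) (k : ℕ) : Type
  | s (q : Q)
  | a (q : Q) (v : J → ZMod 5) (j : J)
  | c (q : Q) (v : J → ZMod 5)
  | b (q : Q) (r v : J → ZMod 5) (j : J)
  | e (q : Q) (r : J → ZMod 5)
  | d (i : Fin k)

variable [Fintype J] [DecidableEq J]

/-- increment a residue -/
def inc (v : J → ZMod 5) (j : J) : J → ZMod 5 := Function.update v j (v j + 1)

omit [Fintype J] in
theorem inc_injective (j : J) : Function.Injective fun v : J → ZMod 5 => inc v j := by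
  intro v w h
  funext i
  have h1 := congrFun h i
  by_cases hi : i = j
  · subst hi
    simpa [inc] using h1
  · simpa [inc, hi] using h1

/-- a word with prescribed numbers of letters -/
noncomputable def cw (m : J → ℕ) : List J := Finset.univ.toList.flatMap fun j => List.replicate (m j) j

theorem count_cw (m : J → ℕ) (j : J) : (cw m).count j = m j := by
  have h1 : ∀ l : List J, l.Nodup → j ∈ l →
      (l.flatMap fun j => List.replicate (m j) j).count j = m j := by
    intro l
    induction l with
    | nil => intro _ h; simp at h
    | cons i l ih =>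
      intro hn hj
      rw [List.flatMap_cons, List.count_append]
      rw [List.nodup_cons] at hn
      by_cases hij : i = j
      · subst hij
        have h2 : (l.flatMap fun j => List.replicate (m j) j).count i = 0 := by
          rw [List.count_eq_zero]
          intro h3
          rw [List.mem_flatMap] at h3
          obtain ⟨x, hx, hx'⟩ := h3
          have := List.eq_of_mem_replicate hx'
          subst this
          exact hn.1 hx
        rw [h2]; simp
      · have h3 : j ∈ l := by simpa [Ne.symm hij] using hj
        rw [ih hn.2 h3, List.count_replicate]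
        simp [hij]
  exact h1 _ (Finset.nodup_toList _) (by simp)

variable (C : CM Q J) (k : ℕ)

/-- The queue automaton of a counter machine, with `k` dummy edges. -/
noncomputable def CM.auto : Auto (Sta Q J) (Let Q J k) (Edg Q J k) where
  src
    | .s _ => .home
    | .a q v _ => .one q v
    | .c q v => .one q v
    | .b q r v _ => .two q r v
    | .e q r => .two q r r
    | .d _ => .dead
  tgt
    | .s q => .one q 0
    | .a q v j => .one q (inc v j)
    | .c q v => .two q v 0
    | .b q r v j => .two q r (inc v j)
    | .e _ _ => .home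
    | .d _ => .dead
  lab
    | .s q => .st q
    | .a _ _ j => .a j
    | .c _ _ => .c
    | .b _ _ _ j => .b j
    | .e q r => .e q r
    | .d i => .dum i
  out
    | .s _ => []
    | .a _ _ j => [.b j]
    | .c q v => [.e q v, .st (C.nxt q v)]
    | .b q r v j => if v j = 4 then List.replicate (C.al q r j) (.a j) else []
    | .e q r => (cw (C.be q r)).map .a ++ [.c]
    | .d _ => []
  det := by
    intro e e' h1 h2
    cases e <;> cases e' <;> simp_all
  codet := by
    rintro (q | ⟨q, v, j⟩ | ⟨q, v⟩ | ⟨q, r, v, j⟩ | ⟨q, r⟩ | i)
      (q' | ⟨q', v', j'⟩ | ⟨q', v'⟩ | ⟨q', r', v', j'⟩ | ⟨q', r'⟩ | i') h1 h2 <;>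
    simp only [Sta.one.injEq, Sta.two.injEq, Let.a.injEq, Let.b.injEq, reduceCtorEq, Let.st.injEq,
      Let.e.injEq, Let.dum.injEq] at h1 h2
    · rw [h2]
    · obtain ⟨rfl, h1⟩ := h1
      subst h2
      rw [inc_injective _ h1]
    · obtain ⟨rfl, rfl, _⟩ := h1
      rfl
    · obtain ⟨rfl, rfl, h1⟩ := h1
      subst h2
      rw [inc_injective _ h1]
    · obtain ⟨rfl, rfl⟩ := h2
      rfl
    · rw [h2]
  noself := by
    intro e
    cases e <;> simp

end Pool.Agent.Lib.MP_d61eec_lc
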