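import Mathlib

/-!
# Orientation of the action graph

Two homomorphisms `φ, ψ` from a free group to a group `G` define a right action of the free group
on `G` by `g ↦ (φ x)⁻¹ * g * ψ x`. If every edge of the action graph is the forward edge of one of
its ends, and every vertex has at most one forward edge, then stabilisers are controlled by the
forward orbits.
-/

set_option autoImplicit false

namespace Pool.Agent.Lib.MP_d61eec_lc

section Abstract

variable {Z Ω : Type*}

/-- Data of an orientation of a graph with vertex set `Ω`, whose edges are labelled by `Z`. -/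
structure Orientation (inv : Z → Z) (st : Z → Ω → Ω) (Fwd : Ω → Z → Prop) : Prop where
  inv_inv : ∀ z, inv (inv z) = z
  st_inv : ∀ z ω, st (inv z) (st z ω) = ω
  uniq : ∀ ω z z', Fwd ω z → Fwd ω z' → z = z'
  orient : ∀ ω z, ¬ Fwd ω z → Fwd (st z ω) (inv z)

variable {inv : Z → Z} {st : Z → Ω → Ω} {Fwd : Ω → Z → Prop}

/-- in backward mode the endpoint has a forward edge -/
theorem Orientation.back (h : Orientation inv st Fwd) : ∀ (L : List Z) (ω : Ω) (z : Z),
    Fwd ω (inv z) → List.IsChain (fun a b => b ≠ inv a) (z :: L) →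
    ∃ z', Fwd (L.foldl (fun ω z => st z ω) ω) z' := by
  intro L
  induction L with
  | nil => intro ω z h1 _; exact ⟨_, h1⟩
  | cons y L ih =>
    intro ω z h1 h2
    rw [List.isChain_cons_cons] at h2
    have h3 : ¬ Fwd ω y := fun h4 => h2.1 (h.uniq _ _ _ h4 h1)
    exact ih (st y ω) y (h.orient _ _ h3) h2.2

theorem Orientation.sink (h : Orientation inv st Fwd) {ω₀ : Ω} (hs : ∀ z, ¬ Fwd ω₀ z)
    (L : List Z) (hL : L ≠ []) (hc : L.IsChain (fun a b => b ≠ inv a)) :
    L.foldl (fun ω z => st z ω) ω₀ ≠ ω₀ := by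
  cases L with
  | nil => exact absurd rfl hL
  | cons z L =>
    intro he
    obtain ⟨z', hz'⟩ := h.back L (st z ω₀) z (h.orient _ _ (hs z)) hc
    rw [List.foldl_cons] at he
    rw [he] at hz'
    exact hs z' hz'

variable {u : ℕ → Ω} {zs : ℕ → Z}

theorem Orientation.back_orbit (h : Orientation inv st Fwd) (hf : ∀ i, Fwd (u i) (zs i))
    (hu : ∀ i, u (i + 1) = st (zs i) (u i)) : ∀ (L : List Z) (ω : Ω) (z : Z),
    Fwd ω (inv z) → (∀ i, ω ≠ u i) → List.IsChain (fun a b => b ≠ inv a) (z :: L) →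
    ∀ i, L.foldl (fun ω z => st z ω) ω ≠ u i := by
  intro L
  induction L with
  | nil => intro ω z _ h2 _; exact h2
  | cons y L ih =>
    intro ω z h1 h2 h3
    rw [List.isChain_cons_cons] at h3
    have h4 : ¬ Fwd ω y := fun h5 => h3.1 (h.uniq _ _ _ h5 h1)
    have h5 := h.orient _ _ h4
    refine ih (st y ω) y h5 ?_ h3.2
    intro i hi
    have h6 : zs i = inv y := h.uniq _ _ _ (hf i) (hi ▸ h5)
    have h7 : u (i + 1) = ω := by rw [hu, h6, ← hi, h.st_inv]
    exact h2 _ h7.symm

theorem Orientation.fwd_orbit (h : Orientation inv st Fwd) (hf : ∀ i, Fwd (u i) (zs i))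
    (hu : ∀ i, u (i + 1) = st (zs i) (u i)) (hinj : Function.Injective u) :
    ∀ (L : List Z) (j : ℕ), List.IsChain (fun a b => b ≠ inv a) (zs j :: L) →
    L.foldl (fun ω z => st z ω) (u (j + 1)) ≠ u 0 := by
  intro L
  induction L with
  | nil => intro j _ h2; exact absurd (hinj h2) (by omega)
  | cons y L ih =>
    intro j h3
    rw [List.isChain_cons_cons] at h3
    by_cases h4 : y = zs (j + 1)
    · subst h4
      have := ih (j + 1) h3.2
      rw [List.foldl_cons, ← hu]
      exact this
    · have h4' : ¬ Fwd (u (j + 1)) y := fun h5 => h4 (h.uniq _ _ _ h5 (hf _))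
      have h5 := h.orient _ _ h4'
      refine h.back_orbit hf hu L _ y h5 ?_ h3.2 0
      intro i hi
      have h6 : zs i = inv y := h.uniq _ _ _ (hf i) (hi ▸ h5)
      have h7 : u (i + 1) = u (j + 1) := by rw [hu i, h6, ← hi, h.st_inv]
      have h8 : i = j := by have := hinj h7; omega
      subst h8
      exact h3.1 (by rw [h6, h.inv_inv])

/-- The stabiliser of the origin of an infinite injective forward orbit is trivial. -/
theorem Orientation.orbit (h : Orientation inv st Fwd) (hf : ∀ i, Fwd (u i) (zs i))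
    (hu : ∀ i, u (i + 1) = st (zs i) (u i)) (hinj : Function.Injective u)
    (L : List Z) (hL : L ≠ []) (hc : L.IsChain (fun a b => b ≠ inv a)) :
    L.foldl (fun ω z => st z ω) (u 0) ≠ u 0 := by
  cases L with
  | nil => exact absurd rfl hL
  | cons z L =>
    rw [List.foldl_cons]
    by_cases h4 : z = zs 0
    · subst h4
      rw [← hu]
      exact h.fwd_orbit hf hu hinj L 0 hc
    · have h4' : ¬ Fwd (u 0) z := fun h5 => h4 (h.uniq _ _ _ h5 (hf _))
      have h5 := h.orient _ _ h4'
      refine h.back_orbit hf hu L _ z h5 ?_ hc 0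
      intro i hi
      have h6 : zs i = inv z := h.uniq _ _ _ (hf i) (hi ▸ h5)
      have h7 : u (i + 1) = u 0 := by rw [hu i, h6, ← hi, h.st_inv]
      exact absurd (hinj h7) (by omega)

end Abstract

section Free

variable {E G : Type*} [DecidableEq E] [Group G]

/-- the action of one letter -/
def stp (φ ψ : FreeGroup E →* G) (z : E × Bool) (g : G) : G :=
  (φ (FreeGroup.mk [z]))⁻¹ * g * ψ (FreeGroup.mk [z])

omit [DecidableEq E] in
theorem foldl_stp (φ ψ : FreeGroup E →* G) : ∀ (L : List (E × Bool)) (g : G),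
    L.foldl (fun g z => stp φ ψ z g) g = (φ (FreeGroup.mk L))⁻¹ * g * ψ (FreeGroup.mk L) := by
  intro L
  induction L with
  | nil => intro g; simp [← FreeGroup.one_eq_mk]
  | cons z L ih =>
    intro g
    rw [List.foldl_cons, ih, stp, show (z :: L) = [z] ++ L from rfl, ← FreeGroup.mul_mk,
      map_mul, map_mul, mul_inv_rev]
    simp only [mul_assoc]

omit [DecidableEq E] in
theorem stp_inv (φ ψ : FreeGroup E →* G) (z : E × Bool) (g : G) :
    stp φ ψ (z.1, !z.2) (stp φ ψ z g) = g := by
  have : (FreeGroup.mk [(z.1, !z.2)] : FreeGroup E) = (FreeGroup.mk [z])⁻¹ := by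
    rw [FreeGroup.inv_mk]; rfl
  unfold stp
  rw [this, map_inv, map_inv]
  group

theorem isChain_toWord (x : FreeGroup E) :
    x.toWord.IsChain (fun a b => b ≠ (a.1, !a.2)) := by
  have h := FreeGroup.isReduced_toWord (x := x)
  refine List.IsChain.imp ?_ h
  rintro ⟨a, b⟩ ⟨c, d⟩ h1 h2
  have h3 := h1 (congrArg Prod.fst h2).symm
  have h4 := congrArg Prod.snd h2
  simp only at h3 h4
  rw [← h3] at h4
  cases b <;> simp at h4

variable {φ ψ : FreeGroup E →* G} {Fwd : G → E × Bool → Prop}

theorem Orientation.injective_of_sink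
    (h : Orientation (fun z : E × Bool => (z.1, !z.2)) (stp φ 1) Fwd) {g₀ : G}
    (hs : ∀ z, ¬ Fwd g₀ z) : Function.Injective φ := by
  rw [injective_iff_map_eq_one]
  intro x hx
  by_contra hne
  have h1 := h.sink hs x.toWord (by rwa [ne_eq, FreeGroup.toWord_eq_nil_iff]) (isChain_toWord x)
  apply h1
  rw [foldl_stp, FreeGroup.mk_toWord, hx]
  simp

theorem Orientation.eq_one_of_orbit
    (h : Orientation (fun z : E × Bool => (z.1, !z.2)) (stp φ ψ) Fwd)
    {u : ℕ → G} {zs : ℕ → E × Bool} (hf : ∀ i, Fwd (u i) (zs i))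
    (hu : ∀ i, u (i + 1) = stp φ ψ (zs i) (u i)) (hinj : Function.Injective u)
    {x : FreeGroup E} (hx : φ x = u 0 * ψ x * (u 0)⁻¹) : x = 1 := by
  by_contra hne
  have h1 := h.orbit hf hu hinj x.toWord (by rwa [ne_eq, FreeGroup.toWord_eq_nil_iff])
    (isChain_toWord x)
  apply h1
  rw [foldl_stp, FreeGroup.mk_toWord, hx]
  group

end Free

end Pool.Agent.Lib.MP_d61eec_lc
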