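import Pool.Agent.Lib.MP_d61eec_lc.Machine

/-!
# Two passes of the queue automaton simulate one step of the counter machine
-/

set_option autoImplicit false

namespace Pool.Agent.Lib.MP_d61eec_lc

open FreeGroup

variable {Q J : Type} [Fintype J] [DecidableEq J]

omit [Fintype J] in
theorem foldl_inc (w : List J) : ∀ v : J → ZMod 5,
    w.foldl inc v = fun j => v j + (w.count j : ZMod 5) := by
  induction w with
  | nil => intro v; simp
  | cons i w ih =>
    intro v
    rw [List.foldl_cons, ih]
    funext j
    by_cases h : j = i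
    · subst h
      simp [inc, List.count_cons_self]
      ring
    · simp [inc, h, Ne.symm h]

variable (C : CM Q J) (k : ℕ)

/-- the word written in the second pass -/
def CM.wout (q : Q) (r : J → ZMod 5) : (J → ZMod 5) → List J → List J
  | _, [] => []
  | v, j :: w => (if v j = 4 then List.replicate (C.al q r j) j else []) ++ CM.wout q r (inc v j) w

omit [Fintype J] in
theorem CM.count_wout (q : Q) (r : J → ZMod 5) (j : J) : ∀ (w : List J) (v : J → ZMod 5),
    (C.wout q r v w).count j = C.al q r j * (((v j).val + w.count j) / 5) := by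
  intro w
  induction w with
  | nil =>
    intro v
    have : (v j).val < 5 := ZMod.val_lt _
    simp [CM.wout, Nat.div_eq_of_lt this]
  | cons i w ih =>
    intro v
    rw [CM.wout, List.count_append, ih]
    by_cases h : j = i
    · subst h
      have h5 : inc v j j = v j + 1 := by simp [inc]
      rw [h5, List.count_cons_self]
      by_cases h4 : v j = 4
      · rw [if_pos h4, List.count_replicate_self, h4]
        have h6 : ((4 : ZMod 5) + 1).val = 0 := by decide
        have h7 : (4 : ZMod 5).val = 4 := by decide
        rw [h6, h7]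
        have : (4 + (w.count j + 1)) / 5 = w.count j / 5 + 1 := by omega
        rw [this]
        ring_nf
      · rw [if_neg h4]
        have h6 : ∀ x : ZMod 5, x ≠ 4 → (x + 1).val = x.val + 1 := by decide
        rw [h6 _ h4]
        simp only [List.count_nil, zero_add]
        congr 2
        omega
    · have h5 : inc v i j = v j := by simp [inc, h]
      have h8 : (if v i = 4 then List.replicate (C.al q r i) i else []).count j = 0 := by
        split_ifs
        · rw [List.count_replicate]; simp [Ne.symm h]
        · simp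
      rw [h5, h8, List.count_cons]
      simp [Ne.symm h]

theorem CM.run_one (q : Q) : ∀ (w : List J) (v : J → ZMod 5) (t : List (Let Q J k)),
    ∃ es, (C.auto k).Run (.one q v, w.map .a ++ t) es (.one q (w.foldl inc v), t ++ w.map .b) := by
  intro w
  induction w with
  | nil => intro v t; exact ⟨[], by simp [Auto.Run]⟩
  | cons j w ih =>
    intro v t
    obtain ⟨es, hes⟩ := ih (inc v j) (t ++ [.b j])
    refine ⟨.a q v j :: es, rfl, w.map .a ++ t, rfl, ?_⟩
    have h1 : w.map .a ++ t ++ (C.auto k).out (.a q v j) = w.map .a ++ (t ++ [.b j]) := by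
      simp [CM.auto]
    rw [h1]
    have h2 : t ++ (j :: w).map .b = (t ++ [.b j]) ++ w.map (.b : J → Let Q J k) := by simp
    rw [h2]
    exact hes

theorem CM.run_two (q : Q) (r : J → ZMod 5) : ∀ (w : List J) (v : J → ZMod 5)
    (t : List (Let Q J k)),
    ∃ es, (C.auto k).Run (.two q r v, w.map .b ++ t) es
      (.two q r (w.foldl inc v), t ++ (C.wout q r v w).map .a) := by
  intro w
  induction w with
  | nil => intro v t; exact ⟨[], by simp [Auto.Run, CM.wout]⟩
  | cons j w ih =>
    intro v t
    have h0 : (C.auto k).out (.b q r v j) =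
        (if v j = 4 then List.replicate (C.al q r j) j else []).map Let.a := by
      show (if v j = 4 then List.replicate (C.al q r j) (Let.a j) else []) = _
      split_ifs <;> simp
    obtain ⟨es, hes⟩ := ih (inc v j) (t ++ (C.auto k).out (.b q r v j))
    refine ⟨.b q r v j :: es, rfl, w.map .b ++ t, rfl, ?_⟩
    have h1 : w.map .b ++ t ++ (C.auto k).out (.b q r v j) =
      w.map .b ++ (t ++ (C.auto k).out (.b q r v j)) := by
      simp
    rw [h1]
    have h2 : t ++ (C.wout q r v (j :: w)).map .a = (t ++ (C.auto k).out (.b q r v j)) ++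
      (C.wout q r (inc v j) w).map (.a : J → Let Q J k) := by
      rw [h0, CM.wout, List.map_append, List.append_assoc]
    rw [h2]
    exact hes

/-- residues of the counts of a word -/
def res (w : List J) : J → ZMod 5 := fun j => (w.count j : ZMod 5)

/-- the next word -/
noncomputable def CM.nw (q : Q) (w : List J) : List J :=
  C.wout q (res w) 0 w ++ cw (C.be q (res w))

theorem CM.count_nw (q : Q) (w : List J) (j : J) :
    (C.nw q w).count j = C.al q (res w) j * (w.count j / 5) + C.be q (res w) j := by
  rw [CM.nw, List.count_append, C.count_wout, count_cw]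
  simp

/-- configurations in the home state -/
def hc (k : ℕ) (q : Q) (w : List J) : Sta Q J × List (Let Q J k) := (.home, .st q :: (w.map .a ++ [.c]))

omit [Fintype J] [DecidableEq J] in
theorem hc_inj {k : ℕ} {q q' : Q} {w w' : List J} (h : hc k q w = hc k q' w') :
    q = q' ∧ w = w' := by
  simp only [hc, Prod.mk.injEq, true_and, List.cons.injEq, Let.st.injEq] at h
  refine ⟨h.1, ?_⟩
  have h1 := List.append_cancel_right h.2
  refine List.map_injective_iff.2 ?_ h1
  intro x y hxy
  simpa using hxy

theorem CM.home_run (q : Q) (w : List J) :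
    ∃ es, es ≠ [] ∧ (C.auto k).Run (hc k q w) es (hc k (C.nxt q (res w)) (C.nw q w)) := by
  obtain ⟨es₁, h₁⟩ := C.run_one k q w 0 [.c]
  obtain ⟨es₂, h₂⟩ := C.run_two k q (res w) w 0 [.e q (res w), .st (C.nxt q (res w))]
  have hf : w.foldl inc (0 : J → ZMod 5) = res w := by
    rw [foldl_inc]; funext j; simp [res]
  rw [hf] at h₁ h₂
  have h3 : (C.auto k).Run (hc k q w) [.s q] (.one q 0, w.map .a ++ [.c]) := by
    refine ⟨rfl, w.map .a ++ [.c], rfl, ?_⟩
    show (_, _) = (_, _)
    simp [CM.auto]
  have h4 : (C.auto k).Run (.one q (res w), [.c] ++ w.map .b) [.c q (res w)]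
      (.two q (res w) 0, w.map .b ++ [.e q (res w), .st (C.nxt q (res w))]) := by
    exact ⟨rfl, w.map .b, rfl, rfl⟩
  have h5 : (C.auto k).Run (.two q (res w) (res w),
      [.e q (res w), .st (C.nxt q (res w))] ++ (C.wout q (res w) 0 w).map .a) [.e q (res w)]
      (hc k (C.nxt q (res w)) (C.nw q w)) := by
    refine ⟨rfl, .st (C.nxt q (res w)) :: (C.wout q (res w) 0 w).map .a, rfl, ?_⟩
    show (_, _) = (_, _)
    simp [CM.nw, CM.auto]
  exact ⟨_, by simp, ((h3.trans h₁).trans (h4.trans h₂)).trans h5⟩

/-- home configurations of the computation -/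
noncomputable def CM.hseq (q₀ : Q) (w₀ : List J) : ℕ → Q × List J
  | 0 => (q₀, w₀)
  | i + 1 => (C.nxt (hseq q₀ w₀ i).1 (res (hseq q₀ w₀ i).2),
      C.nw (hseq q₀ w₀ i).1 (hseq q₀ w₀ i).2)

theorem CM.hseq_step (q₀ : Q) (w₀ : List J) (i : ℕ) :
    ((C.hseq q₀ w₀ i).1, fun j => (C.hseq q₀ w₀ i).2.count j) =
      C.step^[i] (q₀, fun j => w₀.count j) := by
  induction i with
  | zero => rfl
  | succ i ih =>
    rw [Function.iterate_succ_apply', ← ih]
    simp only [CM.step, CM.hseq, Prod.mk.injEq]
    refine ⟨rfl, ?_⟩
    funext j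
    exact C.count_nw _ _ _

theorem CM.hseq_injective_iff [Finite Q] (q₀ : Q) (w₀ : List J) :
    Function.Injective (C.hseq q₀ w₀) ↔
      Function.Injective fun i : ℕ => C.step^[i] (q₀, fun j => w₀.count j) := by
  constructor
  · intro h
    apply injective_of_infinite
    by_contra hfin
    rw [Set.not_infinite] at hfin
    -- the counts are bounded, hence the words have bounded length
    let F : Q × (J → ℕ) → ℕ := fun c => ∑ j, c.2 j
    obtain ⟨B, hB⟩ := (hfin.image F).bddAbove
    have hlen : ∀ i, (C.hseq q₀ w₀ i).2.length ≤ B := by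
      intro i
      have h1 : F (C.step^[i] (q₀, fun j => w₀.count j)) ≤ B :=
        hB ⟨_, ⟨i, rfl⟩, rfl⟩
      rw [← C.hseq_step] at h1
      have h2 : ∀ l : List J, l.length = ∑ j, l.count j := by
        intro l
        induction l with
        | nil => simp
        | cons a l ih =>
          simp only [List.length_cons, List.count_cons, ih, Finset.sum_add_distrib]
          congr 1
          simp
      rw [h2]
      exact h1
    have hfin2 : (Set.range (C.hseq q₀ w₀)).Finite := by
      refine Set.Finite.subset (Set.Finite.prod Set.finite_univ (List.finite_length_le J B)) ?_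
      rintro _ ⟨i, rfl⟩
      exact ⟨Set.mem_univ _, hlen i⟩
    exact Set.infinite_range_of_injective h hfin2
  · intro h a b hab
    apply h
    simp only
    rw [← C.hseq_step, ← C.hseq_step, hab]

/-- The stabiliser of the configuration of a counter machine is nontrivial iff the computation is
eventually periodic. -/
theorem CM.exists_iff [Finite Q] [DecidableEq Q] [DecidableEq (Sta Q J)] [DecidableEq (Let Q J k)]
    (q₀ : Q) (w₀ : List J) :
    (∃ x : FreeGroup (Edg Q J k), x ≠ 1 ∧ (C.auto k).phi x =
      cfg (hc k q₀ w₀) * (C.auto k).psi x * (cfg (hc k q₀ w₀))⁻¹) ↔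
      ¬ Function.Injective fun i : ℕ => C.step^[i] (q₀, fun j => w₀.count j) := by
  rw [← C.hseq_injective_iff]
  have h1 : ∀ i, ∃ es, es ≠ [] ∧ (C.auto k).Run
      (hc k (C.hseq q₀ w₀ i).1 (C.hseq q₀ w₀ i).2) es
      (hc k (C.hseq q₀ w₀ (i + 1)).1 (C.hseq q₀ w₀ (i + 1)).2) := fun i => C.home_run k _ _
  choose es hne hes using h1
  have h2 := (C.auto k).exists_iff (home := fun i => hc k (C.hseq q₀ w₀ i).1 (C.hseq q₀ w₀ i).2)
    hne hes
  rw [show hc k q₀ w₀ = hc k (C.hseq q₀ w₀ 0).1 (C.hseq q₀ w₀ 0).2 from rfl, h2]
  rw [not_iff_not]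
  constructor
  · intro h a b hab
    exact h (by simp only [hab])
  · intro h a b hab
    obtain ⟨h3, h4⟩ := hc_inj hab
    exact h (Prod.ext h3 h4)

end Pool.Agent.Lib.MP_d61eec_lc
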