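import Pool.Agent.Lib.MP_d61eec_lc.Auto

/-!
# Runs of the queue automaton and stabilisers
-/

set_option autoImplicit false

namespace Pool.Agent.Lib.MP_d61eec_lc

open FreeGroup

/-- if the forward orbit of a point under a function is infinite then it is injective -/
theorem injective_of_infinite {α : Type*} (f : α → α) (x : α)
    (h : (Set.range fun i : ℕ => f^[i] x).Infinite) : Function.Injective fun i : ℕ => f^[i] x := by
  have key : ∀ a b : ℕ, a < b → f^[a] x ≠ f^[b] x := by
    intro a b hab he
    apply h
    apply Set.Finite.subset (Set.Finite.image (fun i : ℕ => f^[i] x) (Set.finite_Iio b))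
    rintro _ ⟨n, rfl⟩
    induction n using Nat.strong_induction_on with
    | _ n ih =>
      by_cases hn : n < b
      · exact ⟨n, hn, rfl⟩
      · have h1 : f^[n] x = f^[n - b + a] x := by
          conv_lhs => rw [show n = (n - b) + b by omega, Function.iterate_add_apply, ← he,
            ← Function.iterate_add_apply]
        obtain ⟨m, hm, hm'⟩ := ih (n - b + a) (by omega)
        exact ⟨m, hm, hm'.trans h1.symm⟩
  intro a b hab
  rcases lt_trichotomy a b with h1 | h1 | h1
  · exact absurd hab (key a b h1)
  · exact h1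
  · exact absurd hab.symm (key b a h1)

variable {P X E : Type} [DecidableEq P] [DecidableEq X]

/-- the group element that belongs to a configuration -/
def cfg (c : P × List X) : FreeGroup (X ⊕ P) := sta c.1 * pos c.2

theorem cfg_toWord (c : P × List X) :
    (cfg c).toWord = (Sum.inr c.1, true) :: c.2.map fun x => (Sum.inl x, true) := by
  rw [cfg, sta, pos, mul_mk, toWord_mk]
  apply IsReduced.reduce_eq
  have : ∀ l : List ((X ⊕ P) × Bool), (∀ y ∈ l, y.2 = true) → FreeGroup.IsReduced l := by
    intro l hl
    unfold FreeGroup.IsReduced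
    rw [List.isChain_iff_forall_rel_of_append_cons_cons]
    rintro a b l₁ l₂ rfl _
    rw [hl a (by simp), hl b (by simp)]
  apply this
  intro y hy
  simp only [List.cons_append, List.nil_append, List.mem_cons, List.mem_map] at hy
  rcases hy with rfl | ⟨x, _, rfl⟩ <;> rfl

theorem cfg_injective : Function.Injective (cfg : P × List X → FreeGroup (X ⊕ P)) := by
  intro c c' h
  have h1 := congrArg toWord h
  rw [cfg_toWord, cfg_toWord] at h1
  simp only [List.cons.injEq, Prod.mk.injEq, Sum.inr.injEq, and_true] at h1
  refine Prod.ext h1.1 ?_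
  refine List.map_injective_iff.2 ?_ h1.2
  intro x y hxy
  simpa using hxy

namespace Auto

variable (M : Auto P X E)

/-- Runs of the queue automaton: the automaton reads the first letter of the queue and appends
the output to the queue. -/
def Run : P × List X → List E → P × List X → Prop
  | c, [], c' => c = c'
  | c, e :: es, c' => c.1 = M.src e ∧ ∃ v, c.2 = M.lab e :: v ∧ Run (M.tgt e, v ++ M.out e) es c'

omit [DecidableEq P] [DecidableEq X] in
theorem Run.trans {M : Auto P X E} : ∀ {es es' : List E} {c c' c'' : P × List X},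
    M.Run c es c' → M.Run c' es' c'' → M.Run c (es ++ es') c'' := by
  intro es
  induction es with
  | nil => intro es' c c' c'' h h'; cases h; exact h'
  | cons e es ih =>
    intro es' c c' c'' h h'
    obtain ⟨h1, v, h2, h3⟩ := h
    exact ⟨h1, v, h2, ih h3 h'⟩

omit [DecidableEq P] [DecidableEq X] in
theorem stp_cfg (e : E) (v : List X) :
    stp M.phi M.psi (e, true) (cfg (M.src e, M.lab e :: v)) = cfg (M.tgt e, v ++ M.out e) := by
  unfold stp
  have h1 : M.phi (mk [(e, true)]) = sta (M.src e) * mk [(Sum.inl (M.lab e), true)] *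
      (sta (M.tgt e))⁻¹ := by simp [phi]
  have h2 : M.psi (mk [(e, true)]) = pos (M.out e) := by simp [psi]
  have h3 : (pos (M.lab e :: v) : FreeGroup (X ⊕ P)) = mk [(Sum.inl (M.lab e), true)] * pos v := by
    rw [pos, pos, mul_mk]; rfl
  have h4 : (pos (v ++ M.out e) : FreeGroup (X ⊕ P)) = pos v * pos (M.out e) := by
    rw [pos, pos, pos, mul_mk, List.map_append]
  rw [h1, h2, cfg, cfg, h3, h4]
  group

theorem fwd_cfg (e : E) (v : List X) :
    M.Fwd (cfg (M.src e, M.lab e :: v)) (e, true) := by
  unfold Fwd
  rw [cfg_toWord]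
  exact ⟨v.map fun x => (Sum.inl x, true), rfl⟩

/-- positive word in the edges -/
def word (es : List E) : FreeGroup E := mk (es.map fun e => (e, true))

omit [DecidableEq P] [DecidableEq X] in
theorem run_act {M : Auto P X E} : ∀ {es : List E} {c c' : P × List X}, M.Run c es c' →
    (M.phi (word es))⁻¹ * cfg c * M.psi (word es) = cfg c' := by
  intro es
  induction es with
  | nil => intro c c' h; cases h; simp [word, ← one_eq_mk]
  | cons e es ih =>
    intro c c' h
    obtain ⟨h1, v, h2, h3⟩ := h
    have h4 := ih h3
    rw [← M.stp_cfg e v, stp] at h4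
    have h5 : (word (e :: es) : FreeGroup E) = mk [(e, true)] * word es := by
      rw [word, word, mul_mk]; rfl
    have h6 : c = (M.src e, M.lab e :: v) := Prod.ext h1 h2
    rw [h5, _root_.map_mul, _root_.map_mul, h6, ← h4]
    group

omit [DecidableEq P] [DecidableEq X] in
theorem word_ne_one {es : List E} (h : es ≠ []) : (word es : FreeGroup E) ≠ 1 := by
  intro h1
  have h2 : ∀ l : List E, (FreeGroup.lift fun _ : E => Multiplicative.ofAdd (1 : ℤ)) (word l) =
      Multiplicative.ofAdd (l.length : ℤ) := by
    intro l
    induction l with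
    | nil => simp [word, ← one_eq_mk]
    | cons e l ih =>
      have h5 : (word (e :: l) : FreeGroup E) = mk [(e, true)] * word l := by
        rw [word, word, mul_mk]; rfl
      have h6 : (FreeGroup.lift fun _ : E => Multiplicative.ofAdd (1 : ℤ)) (mk [(e, true)]) =
          Multiplicative.ofAdd (1 : ℤ) := by simp
      rw [h5, _root_.map_mul, ih, h6, ← ofAdd_add]
      congr 1
      push_cast [List.length_cons]
      ring
  have h3 := h2 es
  rw [h1, _root_.map_one] at h3
  have h4 : (es.length : ℤ) = 0 := (Multiplicative.ofAdd.injective h3).symm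
  simp at h4
  exact h h4

omit [DecidableEq P] [DecidableEq X] in
/-- A cycle in the run gives a nontrivial element of the stabiliser. -/
theorem exists_of_cycle {es es' : List E} {c c' : P × List X} (h : M.Run c es c')
    (h' : M.Run c' es' c') (hne : es' ≠ []) :
    ∃ x : FreeGroup E, x ≠ 1 ∧ M.phi x = cfg c * M.psi x * (cfg c)⁻¹ := by
  refine ⟨word es * word es' * (word es)⁻¹, ?_, ?_⟩
  · intro h1
    apply word_ne_one hne
    have : word es' = (word es)⁻¹ * (word es * word es' * (word es)⁻¹) * word es := by group
    rw [this, h1]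
    group
  · have h1 := run_act h
    have h2 := run_act h'
    have h3 : cfg c = M.phi (word es) * cfg c' * (M.psi (word es))⁻¹ := by
      rw [← h1]; group
    have h4 : M.phi (word es') = cfg c' * M.psi (word es') * (cfg c')⁻¹ := by
      nth_rewrite 2 [← h2]; group
    rw [_root_.map_mul, _root_.map_mul, _root_.map_inv, _root_.map_mul, _root_.map_mul, _root_.map_inv, h4, h3]
    group

open Classical in
/-- the total step function of the queue automaton -/
noncomputable def qs (c : P × List X) : P × List X :=
  if h : ∃ e v, c = (M.src e, M.lab e :: v) then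
    (M.tgt h.choose, h.choose_spec.choose ++ M.out h.choose) else c

omit [DecidableEq P] [DecidableEq X] in
theorem qs_eq (e : E) (v : List X) :
    M.qs (M.src e, M.lab e :: v) = (M.tgt e, v ++ M.out e) := by
  have h : ∃ e' v', ((M.src e, M.lab e :: v) : P × List X) = (M.src e', M.lab e' :: v') :=
    ⟨e, v, rfl⟩
  have key : ∀ e' v', ((M.src e, M.lab e :: v) : P × List X) = (M.src e', M.lab e' :: v') →
      ((M.tgt e', v' ++ M.out e') : P × List X) = (M.tgt e, v ++ M.out e) := by
    intro e' v' h1
    simp only [Prod.mk.injEq, List.cons.injEq] at h1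
    have h2 : e' = e := (M.det _ _ h1.1 h1.2.1).symm
    rw [← h1.2.2, h2]
  unfold qs
  rw [dif_pos h]
  exact key _ _ h.choose_spec.choose_spec

omit [DecidableEq P] [DecidableEq X] in
theorem iterate_of_run {M : Auto P X E} : ∀ {es : List E} {c c' : P × List X}, M.Run c es c' →
    M.qs^[es.length] c = c' := by
  intro es
  induction es with
  | nil => intro c c' h; exact h
  | cons e es ih =>
    intro c c' h
    obtain ⟨h1, v, h2, h3⟩ := h
    have h6 : c = (M.src e, M.lab e :: v) := Prod.ext h1 h2
    rw [List.length_cons, Function.iterate_succ_apply, h6, qs_eq]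
    exact ih h3

/-- If the run visits infinitely many configurations then the stabiliser is trivial. -/
theorem eq_one_of_infinite {home : ℕ → P × List X} {es : ℕ → List E}
    (hrun : ∀ i, M.Run (home i) (es i) (home (i + 1))) (hinj : Function.Injective home)
    {x : FreeGroup E} (hx : M.phi x = cfg (home 0) * M.psi x * (cfg (home 0))⁻¹) : x = 1 := by
  classical
  have h1 : ∀ i, ∃ m, M.qs^[m] (home 0) = home i := by
    intro i
    induction i with
    | zero => exact ⟨0, rfl⟩
    | succ i ih =>
      obtain ⟨m, hm⟩ := ih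
      refine ⟨(es i).length + m, ?_⟩
      rw [Function.iterate_add_apply, hm]
      exact iterate_of_run (hrun i)
  have h2 : (Set.range fun i : ℕ => M.qs^[i] (home 0)).Infinite := by
    refine Set.Infinite.mono ?_ (Set.infinite_range_of_injective hinj)
    rintro _ ⟨i, rfl⟩
    obtain ⟨m, hm⟩ := h1 i
    exact ⟨m, hm⟩
  have h3 := injective_of_infinite _ _ h2
  have h4 : ∀ i, ∃ e v, M.qs^[i] (home 0) = (M.src e, M.lab e :: v) := by
    intro i
    by_contra hno
    have h5 : M.qs (M.qs^[i] (home 0)) = M.qs^[i] (home 0) := by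
      generalize M.qs^[i] (home 0) = c at hno
      unfold qs
      rw [dif_neg hno]
    have h6 : M.qs^[i + 1] (home 0) = M.qs^[i] (home 0) := by
      rw [Function.iterate_succ_apply', h5]
    have := h3 h6
    omega
  choose e v hev using h4
  refine M.orientation.eq_one_of_orbit (u := fun i => cfg (M.qs^[i] (home 0)))
    (zs := fun i => (e i, true)) ?_ ?_ ?_ hx
  · intro i
    show M.Fwd (cfg (M.qs^[i] (home 0))) (e i, true)
    rw [hev]
    exact M.fwd_cfg _ _
  · intro i
    show cfg (M.qs^[i + 1] (home 0)) = stp M.phi M.psi (e i, true) (cfg (M.qs^[i] (home 0)))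
    rw [Function.iterate_succ_apply', hev, qs_eq, stp_cfg]
  · exact cfg_injective.comp h3

omit [DecidableEq P] [DecidableEq X] in
theorem run_between {home : ℕ → P × List X} {es : ℕ → List E} (hne : ∀ i, es i ≠ [])
    (hrun : ∀ i, M.Run (home i) (es i) (home (i + 1))) (i : ℕ) : ∀ k : ℕ,
    ∃ l, M.Run (home i) l (home (i + k)) ∧ (k ≠ 0 → l ≠ []) := by
  intro k
  induction k with
  | zero => exact ⟨[], rfl, by simp⟩
  | succ k ih =>
    obtain ⟨l, hl, _⟩ := ih
    refine ⟨l ++ es (i + k), hl.trans (hrun (i + k)), fun _ h => ?_⟩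
    exact hne (i + k) (List.append_eq_nil_iff.1 h).2

/-- The stabiliser of a configuration is nontrivial iff the run is eventually periodic. -/
theorem exists_iff {home : ℕ → P × List X} {es : ℕ → List E} (hne : ∀ i, es i ≠ [])
    (hrun : ∀ i, M.Run (home i) (es i) (home (i + 1))) :
    (∃ x : FreeGroup E, x ≠ 1 ∧ M.phi x = cfg (home 0) * M.psi x * (cfg (home 0))⁻¹) ↔
      ¬ Function.Injective home := by
  constructor
  · rintro ⟨x, hx, hx'⟩ hinj
    exact hx (M.eq_one_of_infinite hrun hinj hx')
  · intro h
    have : ∃ i j, i < j ∧ home i = home j := by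
      rw [Function.not_injective_iff] at h
      obtain ⟨a, b, hab, hne⟩ := h
      rcases lt_or_gt_of_ne hne with h1 | h1
      · exact ⟨a, b, h1, hab⟩
      · exact ⟨b, a, h1, hab.symm⟩
    obtain ⟨i, j, hij, he⟩ := this
    obtain ⟨l₁, hl₁, _⟩ := M.run_between hne hrun 0 i
    obtain ⟨l₂, hl₂, hl₂'⟩ := M.run_between hne hrun i (j - i)
    rw [zero_add] at hl₁
    rw [show i + (j - i) = j by omega, ← he] at hl₂
    exact M.exists_of_cycle hl₁ hl₂ (hl₂' (by omega))

end Auto

end Pool.Agent.Lib.MP_d61eec_lc
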